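import Mathlib

/-!
# Summability of nonnegative multiplicative functions
-/

set_option autoImplicit false

namespace Pool.Agent.X275.GZ

open Finset

/-- A nonnegative multiplicative function is summable if its values at prime powers (with positive
exponent) are summable. -/
theorem summable_of_multiplicative (f : ℕ → ℝ) (h0 : f 0 = 0) (h1 : f 1 = 1) (hf : ∀ n, 0 ≤ f n)
    (hmul : ∀ {m n : ℕ}, Nat.Coprime m n → f (m * n) = f m * f n)
    (hp : ∀ p : ℕ, p.Prime → Summable fun k : ℕ => f (p ^ (k + 1)))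
    (hs : Summable fun p : Nat.Primes => ∑' k : ℕ, f ((p : ℕ) ^ (k + 1))) : Summable f := by
  have hsum : ∀ {p : ℕ}, p.Prime → Summable (fun n : ℕ => ‖f (p ^ n)‖) := by
    intro p hpp
    rw [← summable_nat_add_iff 1]
    refine (hp p hpp).congr fun k => ?_
    rw [Real.norm_of_nonneg (hf _)]
  have key : ∀ N : ℕ, ∏ p ∈ N.primesBelow, ∑' n : ℕ, f (p ^ n)
      ≤ Real.exp (∑' p : Nat.Primes, ∑' k : ℕ, f ((p : ℕ) ^ (k + 1))) := by
    intro N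
    have e1 : ∀ p ∈ N.primesBelow, ∑' n : ℕ, f (p ^ n) ≤ Real.exp (∑' k : ℕ, f (p ^ (k + 1))) := by
      intro p hpN
      have hpp : p.Prime := Nat.prime_of_mem_primesBelow hpN
      have hsm : Summable fun n : ℕ => f (p ^ n) := by
        rw [← summable_nat_add_iff 1]; exact hp p hpp
      rw [hsm.tsum_eq_zero_add, pow_zero, h1, add_comm]
      exact Real.add_one_le_exp _
    refine (Finset.prod_le_prod (fun p _ => tsum_nonneg fun n => hf _) e1).trans ?_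
    rw [← Real.exp_sum]
    apply Real.exp_le_exp.mpr
    have e2 : ∑ p ∈ N.primesBelow.subtype Nat.Prime, ∑' k : ℕ, f ((p : ℕ) ^ (k + 1))
        = ∑ p ∈ N.primesBelow, ∑' k : ℕ, f (p ^ (k + 1)) :=
      Finset.sum_subtype_of_mem (fun p => ∑' k : ℕ, f (p ^ (k + 1)))
        (fun p hpN => Nat.prime_of_mem_primesBelow hpN)
    rw [← e2]
    have hs' : Summable fun p : {p : ℕ // Nat.Prime p} => ∑' k : ℕ, f ((p : ℕ) ^ (k + 1)) := hs
    have h9 := hs'.sum_le_tsum (N.primesBelow.subtype Nat.Prime)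
      (fun p _ => tsum_nonneg fun k => hf _)
    exact h9
  refine summable_of_sum_le hf (c := Real.exp (∑' p : Nat.Primes, ∑' k : ℕ, f ((p : ℕ) ^ (k + 1))))
    fun F => ?_
  obtain ⟨N, hN⟩ : ∃ N : ℕ, ∀ m ∈ F, m < N := by
    refine ⟨F.sup id + 1, fun m hm => ?_⟩
    exact Nat.lt_succ_of_le (Finset.le_sup (f := id) hm)
  obtain ⟨hS1, hS2⟩ := EulerProduct.summable_and_hasSum_smoothNumbers_prod_primesBelow_tsum
    h1 hmul hsum N
  have hS3 : Summable (fun m : N.smoothNumbers => f m) := hS2.summable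
  have e3 : ∑ m ∈ F, f m = ∑ m ∈ F.filter (fun m => m ≠ 0), f m := by
    symm
    apply Finset.sum_subset (Finset.filter_subset _ _)
    intro m hm hm2
    have : m = 0 := by
      by_contra hne
      exact hm2 (Finset.mem_filter.mpr ⟨hm, hne⟩)
    rw [this, h0]
  rw [e3]
  have e4 : ∑ m ∈ (F.filter (fun m => m ≠ 0)).subtype (· ∈ N.smoothNumbers), f m
      = ∑ m ∈ F.filter (fun m => m ≠ 0), f m :=
    Finset.sum_subtype_of_mem f (fun m hm => Nat.mem_smoothNumbers_of_lt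
      (Nat.pos_of_ne_zero (Finset.mem_filter.mp hm).2) (hN _ (Finset.mem_filter.mp hm).1))
  rw [← e4]
  refine (hS3.sum_le_tsum _ (fun m _ => hf _)).trans ?_
  rw [hS2.tsum_eq]
  exact key N

/-- Polynomially weighted geometric bound for the local factors. -/
theorem local_bound (τ : ℝ) (hτ : 21 / 2 < τ) (N : ℕ → ℕ → ℕ)
    (h1 : ∀ p : ℕ, p.Prime → N p 1 ≤ 2 ^ 8 * p ^ 9)
    (hk : ∀ p k : ℕ, p.Prime → N p k ≤ (k + 1) ^ 8 * p ^ (10 * k)) :
    (∀ p : ℕ, p.Prime → Summable fun k : ℕ => (N p (k + 1) : ℝ) * ((p ^ (k + 1) : ℕ) : ℝ) ^ (-τ)) ∧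
    Summable fun p : Nat.Primes => ∑' k : ℕ, (N p (k + 1) : ℝ) * (((p : ℕ) ^ (k + 1) : ℕ) : ℝ) ^ (-τ)
    := by
  -- `r p = p ^ (10 - τ)`
  have hr2 : (2 : ℝ) ^ (-(1 / 2 : ℝ)) < 1 := by
    apply Real.rpow_lt_one_of_one_lt_of_neg <;> norm_num
  set ρ : ℝ := (2 : ℝ) ^ (-(1 / 2 : ℝ)) with hρ
  have hρ0 : 0 < ρ := by positivity
  have hgeo : Summable fun k : ℕ => ((k : ℝ) + 3) ^ 8 * ρ ^ k := by
    have h2 : Summable fun k : ℕ => ((k : ℝ)) ^ 8 * ρ ^ k :=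
      summable_pow_mul_geometric_of_norm_lt_one 8 (by rw [Real.norm_of_nonneg hρ0.le]; exact hr2)
    have h3 := (summable_nat_add_iff 3).mpr h2
    have h4 := h3.mul_right (ρ ^ 3)⁻¹
    refine h4.congr fun k => ?_
    have : ρ ^ 3 ≠ 0 := by positivity
    push_cast
    rw [pow_add]
    field_simp
  set C : ℝ := ∑' k : ℕ, ((k : ℝ) + 3) ^ 8 * ρ ^ k with hC
  have hC0 : 0 ≤ C := tsum_nonneg fun k => by positivity
  have term : ∀ p : ℕ, p.Prime → ∀ k : ℕ, (N p (k + 2) : ℝ) * ((p ^ (k + 2) : ℕ) : ℝ) ^ (-τ)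
      ≤ (p : ℝ) ^ (20 - 2 * τ) * (((k : ℝ) + 3) ^ 8 * ρ ^ k) := by
    intro p hp k
    have hp0 : (0 : ℝ) < p := by exact_mod_cast hp.pos
    have hp2 : (2 : ℝ) ≤ p := by exact_mod_cast hp.two_le
    have e1 : (N p (k + 2) : ℝ) ≤ ((k : ℝ) + 3) ^ 8 * (p : ℝ) ^ (10 * ((k : ℝ) + 2)) := by
      have := hk p (k + 2) hp
      have h5 : (N p (k + 2) : ℝ) ≤ (((k + 2 + 1) ^ 8 * p ^ (10 * (k + 2)) : ℕ) : ℝ) := by
        exact_mod_cast this
      refine h5.trans (le_of_eq ?_)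
      push_cast
      have h6 : (p : ℝ) ^ (10 * ((k : ℝ) + 2)) = (p : ℝ) ^ (10 * (k + 2)) := by
        rw [← Real.rpow_natCast]; push_cast; ring_nf
      rw [h6]; ring
    have e2 : ((p ^ (k + 2) : ℕ) : ℝ) ^ (-τ) = (p : ℝ) ^ (-τ * ((k : ℝ) + 2)) := by
      push_cast
      rw [← Real.rpow_natCast, ← Real.rpow_mul hp0.le]; push_cast; ring_nf
    have e3 : (p : ℝ) ^ (10 * ((k : ℝ) + 2)) * (p : ℝ) ^ (-τ * ((k : ℝ) + 2))
        = (p : ℝ) ^ (20 - 2 * τ) * ((p : ℝ) ^ (10 - τ)) ^ k := by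
      rw [← Real.rpow_add hp0, ← Real.rpow_natCast, ← Real.rpow_mul hp0.le, ← Real.rpow_add hp0]
      ring_nf
    have e4 : ((p : ℝ) ^ (10 - τ)) ^ k ≤ ρ ^ k := by
      apply pow_le_pow_left₀ (by positivity)
      calc (p : ℝ) ^ (10 - τ) ≤ (p : ℝ) ^ (-(1 / 2 : ℝ)) :=
            Real.rpow_le_rpow_of_exponent_le (by linarith) (by linarith)
        _ ≤ 2 ^ (-(1 / 2 : ℝ)) := Real.rpow_le_rpow_of_nonpos (by norm_num) hp2 (by norm_num)
    rw [e2]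
    calc (N p (k + 2) : ℝ) * (p : ℝ) ^ (-τ * ((k : ℝ) + 2))
        ≤ (((k : ℝ) + 3) ^ 8 * (p : ℝ) ^ (10 * ((k : ℝ) + 2))) * (p : ℝ) ^ (-τ * ((k : ℝ) + 2)) :=
          mul_le_mul_of_nonneg_right e1 (by positivity)
      _ = ((k : ℝ) + 3) ^ 8 * ((p : ℝ) ^ (20 - 2 * τ) * ((p : ℝ) ^ (10 - τ)) ^ k) := by
          rw [mul_assoc, e3]
      _ ≤ ((k : ℝ) + 3) ^ 8 * ((p : ℝ) ^ (20 - 2 * τ) * ρ ^ k) := by
          apply mul_le_mul_of_nonneg_left _ (by positivity)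
          exact mul_le_mul_of_nonneg_left e4 (by positivity)
      _ = _ := by ring
  have nn : ∀ p : ℕ, ∀ k : ℕ, 0 ≤ (N p k : ℝ) * ((p ^ k : ℕ) : ℝ) ^ (-τ) := fun p k => by
    positivity
  have hps : ∀ p : ℕ, p.Prime →
      Summable fun k : ℕ => (N p (k + 1) : ℝ) * ((p ^ (k + 1) : ℕ) : ℝ) ^ (-τ) := by
    intro p hp
    rw [← summable_nat_add_iff 1]
    exact Summable.of_nonneg_of_le (fun k => nn p _) (term p hp) (hgeo.mul_left _)
  refine ⟨hps, ?_⟩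
  have hsum1 : Summable fun p : Nat.Primes => (2 : ℝ) ^ 8 * ((p : ℕ) : ℝ) ^ (9 - τ) :=
    ((Nat.Primes.summable_rpow).mpr (by linarith)).mul_left _
  have hsum2 : Summable fun p : Nat.Primes => ((p : ℕ) : ℝ) ^ (20 - 2 * τ) * C :=
    ((Nat.Primes.summable_rpow).mpr (by linarith)).mul_right _
  refine Summable.of_nonneg_of_le (fun p => tsum_nonneg fun k => nn p _) (fun p => ?_)
    (hsum1.add hsum2)
  have hp : (p : ℕ).Prime := p.2
  have hp0 : (0 : ℝ) < (p : ℕ) := by exact_mod_cast hp.pos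
  rw [(hps p hp).tsum_eq_zero_add]
  refine add_le_add ?_ ?_
  · have e1 : (N p 1 : ℝ) ≤ 2 ^ 8 * ((p : ℕ) : ℝ) ^ 9 := by exact_mod_cast h1 p hp
    simp only [zero_add, pow_one]
    calc (N p 1 : ℝ) * ((p : ℕ) : ℝ) ^ (-τ) ≤ (2 ^ 8 * ((p : ℕ) : ℝ) ^ 9) * ((p : ℕ) : ℝ) ^ (-τ) :=
          mul_le_mul_of_nonneg_right e1 (by positivity)
      _ = 2 ^ 8 * ((p : ℕ) : ℝ) ^ (9 - τ) := by
          have e2 : ((p : ℕ) : ℝ) ^ 9 = ((p : ℕ) : ℝ) ^ (9 : ℝ) := by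
            rw [← Real.rpow_natCast]; norm_num
          rw [mul_assoc, e2, ← Real.rpow_add hp0]
          ring_nf
  · rw [hC, ← tsum_mul_left]
    have hs' := (summable_nat_add_iff (f := fun k : ℕ =>
      (N p (k + 1) : ℝ) * (((p : ℕ) ^ (k + 1) : ℕ) : ℝ) ^ (-τ)) 1).mpr (hps p hp)
    exact hs'.tsum_le_tsum (term p hp) (hgeo.mul_left _)

end Pool.Agent.X275.GZ
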