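import Mathlib

/-!
# Poles of Dirichlet series in `q ^ (-s)` with nonnegative coefficients
-/

set_option autoImplicit false

namespace Pool.Agent.X275.GZ

open Filter Topology

section pole

variable {q : ℕ} {a : ℕ → ℕ} {x₀ : ℝ}

/-- The term of the series at `s`. -/
noncomputable def tm (q : ℕ) (a : ℕ → ℕ) (s : ℂ) (k : ℕ) : ℂ := (a k : ℂ) * (q : ℂ) ^ (-(k : ℂ) * s)

/-- The real term of the series. -/
noncomputable def rtm (q : ℕ) (a : ℕ → ℕ) (σ : ℝ) (k : ℕ) : ℝ := (a k : ℝ) * (q : ℝ) ^ (-(k : ℝ) * σ)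

lemma norm_tm (hq : 2 ≤ q) (s : ℂ) (k : ℕ) : ‖tm q a s k‖ = rtm q a s.re k := by
  rw [tm, rtm, norm_mul, Complex.norm_natCast, Complex.norm_natCast_cpow_of_pos (by omega)]
  simp

lemma tm_ofReal (σ : ℝ) (k : ℕ) : tm q a (σ : ℂ) k = ((rtm q a σ k : ℝ) : ℂ) := by
  rw [tm, rtm]
  push_cast
  rw [Complex.ofReal_cpow (Nat.cast_nonneg q)]
  push_cast
  rfl

lemma rtm_nonneg (σ : ℝ) (k : ℕ) : 0 ≤ rtm q a σ k := by
  rw [rtm]; positivity

lemma summable_rtm (hq : 2 ≤ q) (hup : ∀ k : ℕ, (a k : ℝ) ≤ ((k : ℝ) + 1) ^ 9 * (q : ℝ) ^ (x₀ * k))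
    {σ : ℝ} (hσ : x₀ < σ) : Summable (rtm q a σ) := by
  have hq1 : (1 : ℝ) < q := by exact_mod_cast hq
  have hq0 : (0 : ℝ) < q := by linarith
  set ρ : ℝ := (q : ℝ) ^ (x₀ - σ) with hρ
  have hρ0 : 0 < ρ := by positivity
  have hρ1 : ρ < 1 := Real.rpow_lt_one_of_one_lt_of_neg hq1 (by linarith)
  have h2 : Summable fun k : ℕ => ((k : ℝ)) ^ 9 * ρ ^ k :=
    summable_pow_mul_geometric_of_norm_lt_one 9 (by rw [Real.norm_of_nonneg hρ0.le]; exact hρ1)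
  have h3 := ((summable_nat_add_iff 1).mpr h2).mul_right (ρ)⁻¹
  refine Summable.of_nonneg_of_le (fun k => rtm_nonneg σ k) (fun k => ?_) h3
  have e : (((k + 1 : ℕ) : ℝ)) ^ 9 * ρ ^ (k + 1) * ρ⁻¹ = ((k : ℝ) + 1) ^ 9 * ρ ^ k := by
    have : ρ ≠ 0 := hρ0.ne'
    push_cast
    rw [pow_succ ρ k, mul_assoc, mul_assoc, mul_inv_cancel₀ this, mul_one]
  rw [e, rtm]
  calc (a k : ℝ) * (q : ℝ) ^ (-(k : ℝ) * σ)
      ≤ (((k : ℝ) + 1) ^ 9 * (q : ℝ) ^ (x₀ * k)) * (q : ℝ) ^ (-(k : ℝ) * σ) :=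
        mul_le_mul_of_nonneg_right (hup k) (by positivity)
    _ = ((k : ℝ) + 1) ^ 9 * ρ ^ k := by
        have e2 : ρ ^ k = (q : ℝ) ^ ((x₀ - σ) * k) := by
          rw [hρ, ← Real.rpow_natCast ((q : ℝ) ^ (x₀ - σ)) k, ← Real.rpow_mul hq0.le]
        rw [mul_assoc, ← Real.rpow_add hq0, e2]
        congr 2
        ring

lemma summable_tm (hq : 2 ≤ q) (hup : ∀ k : ℕ, (a k : ℝ) ≤ ((k : ℝ) + 1) ^ 9 * (q : ℝ) ^ (x₀ * k))
    {s : ℂ} (hs : x₀ < s.re) : Summable (tm q a s) := by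
  apply Summable.of_norm
  simp only [norm_tm hq]
  exact summable_rtm hq hup hs

lemma tendsto_atTop_rtm (hq : 2 ≤ q)
    (hup : ∀ k : ℕ, (a k : ℝ) ≤ ((k : ℝ) + 1) ^ 9 * (q : ℝ) ^ (x₀ * k))
    (hlow : ∀ j : ℕ, 1 ≤ j → (q : ℝ) ^ (x₀ * (3 * j)) ≤ (q : ℝ) ^ 2 * a (3 * j)) :
    Tendsto (fun σ : ℝ => ∑' k : ℕ, rtm q a σ k) (𝓝[>] x₀) atTop := by
  have hq1 : (1 : ℝ) < q := by exact_mod_cast hq
  have hq0 : (0 : ℝ) < q := by linarith
  rw [tendsto_atTop]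
  intro M
  obtain ⟨J, hJ⟩ := exists_nat_gt (M * (q : ℝ) ^ 2)
  have hcont : ContinuousAt (fun σ : ℝ => (J : ℝ) * ((q : ℝ) ^ ((x₀ - σ) * (3 * J)) / (q : ℝ) ^ 2)) x₀ := by
    have : ContinuousAt (fun σ : ℝ => (q : ℝ) ^ ((x₀ - σ) * (3 * J))) x₀ := by
      apply ContinuousAt.rpow continuousAt_const (by fun_prop)
      left; exact hq0.ne'
    exact continuousAt_const.mul (this.div_const _)
  have hval : M < (J : ℝ) * ((q : ℝ) ^ ((x₀ - x₀) * (3 * J)) / (q : ℝ) ^ 2) := by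
    rw [sub_self, zero_mul, Real.rpow_zero, mul_one_div, lt_div_iff₀ (by positivity)]
    exact hJ
  have h1 : ∀ᶠ σ in 𝓝[>] x₀,
      M < (J : ℝ) * ((q : ℝ) ^ ((x₀ - σ) * (3 * J)) / (q : ℝ) ^ 2) :=
    (hcont.eventually_const_lt hval).filter_mono nhdsWithin_le_nhds
  filter_upwards [h1, self_mem_nhdsWithin] with σ h2 hσ
  have hσ' : x₀ < σ := hσ
  refine h2.le.trans ?_
  have hinj : Set.InjOn (fun j : ℕ => 3 * j) (Finset.Icc 1 J : Set ℕ) := by
    intro x _ y _ hxy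
    have : 3 * x = 3 * y := hxy
    omega
  calc (J : ℝ) * ((q : ℝ) ^ ((x₀ - σ) * (3 * J)) / (q : ℝ) ^ 2)
      = ∑ j ∈ Finset.Icc 1 J, ((q : ℝ) ^ ((x₀ - σ) * (3 * J)) / (q : ℝ) ^ 2) := by
        rw [Finset.sum_const, Nat.card_Icc, nsmul_eq_mul]; simp
    _ ≤ ∑ j ∈ Finset.Icc 1 J, rtm q a σ (3 * j) := by
        refine Finset.sum_le_sum fun j hj => ?_
        obtain ⟨hj1, hj2⟩ := Finset.mem_Icc.mp hj
        have hl := hlow j hj1
        have hj2' : (j : ℝ) ≤ J := by exact_mod_cast hj2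
        rw [rtm, div_le_iff₀ (by positivity)]
        calc (q : ℝ) ^ ((x₀ - σ) * (3 * J)) ≤ (q : ℝ) ^ ((x₀ - σ) * (3 * j)) := by
              apply Real.rpow_le_rpow_of_exponent_le hq1.le
              have : (x₀ - σ) ≤ 0 := by linarith
              nlinarith
          _ = (q : ℝ) ^ (x₀ * (3 * j)) * (q : ℝ) ^ (-((3 * j : ℕ) : ℝ) * σ) := by
              rw [← Real.rpow_add hq0]
              congr 1
              push_cast
              ring
          _ ≤ ((q : ℝ) ^ 2 * a (3 * j)) * (q : ℝ) ^ (-((3 * j : ℕ) : ℝ) * σ) :=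
              mul_le_mul_of_nonneg_right hl (by positivity)
          _ = _ := by ring
    _ = ∑ k ∈ (Finset.Icc 1 J).image (fun j : ℕ => 3 * j), rtm q a σ k := by
        rw [Finset.sum_image hinj]
    _ ≤ ∑' k : ℕ, rtm q a σ k :=
        (summable_rtm hq hup hσ').sum_le_tsum _ (fun k _ => rtm_nonneg σ k)

lemma analytic_sum (hq : 2 ≤ q)
    (hup : ∀ k : ℕ, (a k : ℝ) ≤ ((k : ℝ) + 1) ^ 9 * (q : ℝ) ^ (x₀ * k)) (s : ℂ) (hs : x₀ < s.re) :
    AnalyticAt ℂ (fun z => ∑' k : ℕ, tm q a z k) s := by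
  have hq1 : (1 : ℝ) < q := by exact_mod_cast hq
  obtain ⟨σ, h1, h2⟩ := exists_between hs
  have hopen : IsOpen {z : ℂ | σ < z.re} := isOpen_lt continuous_const Complex.continuous_re
  have hd : DifferentiableOn ℂ (fun z => ∑' k : ℕ, tm q a z k) {z : ℂ | σ < z.re} := by
    refine Complex.differentiableOn_tsum_of_summable_norm (summable_rtm hq hup h1) ?_ hopen ?_
    · intro k z _
      apply DifferentiableAt.differentiableWithinAt
      have hq0 : (q : ℂ) ≠ 0 := by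
        have : q ≠ 0 := by omega
        exact_mod_cast this
      simp only [tm]
      apply DifferentiableAt.const_mul
      apply DifferentiableAt.const_cpow (by fun_prop)
      left; exact hq0
    · intro k z hz
      have hz' : σ < z.re := hz
      rw [norm_tm hq, rtm, rtm]
      apply mul_le_mul_of_nonneg_left _ (Nat.cast_nonneg _)
      apply Real.rpow_le_rpow_of_exponent_le hq1.le
      have : (0 : ℝ) ≤ k := Nat.cast_nonneg k
      nlinarith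
  exact hd.analyticAt (hopen.mem_nhds h2)

/-- Every meromorphic continuation of the series has a pole at `x₀`. -/
theorem pole_of_bounds (hq : 2 ≤ q)
    (hup : ∀ k : ℕ, (a k : ℝ) ≤ ((k : ℝ) + 1) ^ 9 * (q : ℝ) ^ (x₀ * k))
    (hlow : ∀ j : ℕ, 1 ≤ j → (q : ℝ) ^ (x₀ * (3 * j)) ≤ (q : ℝ) ^ 2 * a (3 * j))
    (F : ℂ → ℂ) (hF : MeromorphicOn F Set.univ) (σ₀ : ℝ)
    (hsum : ∀ s : ℂ, σ₀ < s.re → HasSum (tm q a s) (F s)) :
    meromorphicOrderAt F (x₀ : ℂ) < 0 := by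
  set Z : ℂ → ℂ := fun z => ∑' k : ℕ, tm q a z k with hZ
  let H : Set ℂ := {z : ℂ | x₀ < z.re}
  have hHc : IsPreconnected H := (convex_halfSpace_re_gt x₀).isPreconnected
  have hD : MeromorphicOn (F - Z) H := by
    intro z hz
    exact (hF z (Set.mem_univ z)).sub (analytic_sum hq hup z hz).meromorphicAt
  have htop : ∀ z ∈ H, meromorphicOrderAt (F - Z) z = ⊤ := by
    by_contra hne
    push Not at hne
    obtain ⟨z, hz, hz2⟩ := hne
    set w : ℂ := ((max x₀ σ₀ + 1 : ℝ) : ℂ) with hw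
    have hw1 : x₀ < w.re := by
      rw [hw, Complex.ofReal_re]
      have := le_max_left x₀ σ₀
      linarith
    have hw2 : σ₀ < w.re := by
      rw [hw, Complex.ofReal_re]
      have := le_max_right x₀ σ₀
      linarith
    have h3 := hD.meromorphicOrderAt_ne_top_of_isPreconnected hHc hz (show w ∈ H from hw1) hz2
    apply h3
    rw [meromorphicOrderAt_eq_top_iff]
    apply Filter.Eventually.filter_mono nhdsWithin_le_nhds
    have hopen : IsOpen {z : ℂ | σ₀ < z.re} := isOpen_lt continuous_const Complex.continuous_re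
    filter_upwards [hopen.mem_nhds hw2] with y hy
    rw [Pi.sub_apply, hZ, sub_eq_zero]
    exact (hsum y hy).tsum_eq.symm
  by_contra hneg
  obtain ⟨c, hc⟩ := tendsto_nhds_of_meromorphicOrderAt_nonneg (hF (x₀ : ℂ) (Set.mem_univ _))
    (not_lt.mp hneg)
  have hb : ∀ᶠ z in 𝓝[≠] (x₀ : ℂ), ‖F z‖ < ‖c‖ + 1 :=
    hc.norm.eventually_lt_const (by linarith)
  rw [eventually_nhdsWithin_iff, Metric.eventually_nhds_iff] at hb
  obtain ⟨ε, hε, hb⟩ := hb
  have hT := tendsto_atTop_rtm hq hup hlow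
  have h1 : ∀ᶠ σ in 𝓝[>] x₀, ‖c‖ + 2 ≤ ∑' k : ℕ, rtm q a σ k := hT.eventually_ge_atTop _
  have h2 : ∀ᶠ σ in 𝓝[>] x₀, σ < x₀ + ε := by
    apply Filter.Eventually.filter_mono nhdsWithin_le_nhds
    exact eventually_lt_nhds (by linarith)
  obtain ⟨σ, h3, h4, h5⟩ := (h1.and (h2.and self_mem_nhdsWithin)).exists
  have h5' : x₀ < σ := h5
  have hσH : (σ : ℂ) ∈ H := by
    show x₀ < (σ : ℂ).re
    rw [Complex.ofReal_re]; exact h5'
  have h6 : ∀ᶠ z in 𝓝[≠] (σ : ℂ), (F - Z) z = 0 := meromorphicOrderAt_eq_top_iff.mp (htop _ hσH)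
  have h7 : Tendsto Z (𝓝[≠] (σ : ℂ)) (𝓝 (Z σ)) :=
    (analytic_sum hq hup _ hσH).continuousAt.tendsto.mono_left nhdsWithin_le_nhds
  have h8 : ∀ᶠ z in 𝓝[≠] (σ : ℂ), dist z (x₀ : ℂ) < ε := by
    apply Filter.Eventually.filter_mono nhdsWithin_le_nhds
    have : dist (σ : ℂ) (x₀ : ℂ) < ε := by
      rw [Complex.dist_eq, ← Complex.ofReal_sub, Complex.norm_real, Real.norm_eq_abs,
        abs_of_pos (by linarith)]
      linarith
    exact (continuous_id.dist continuous_const).continuousAt.eventually_lt_const this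
  have h9 : ∀ᶠ z in 𝓝[≠] (σ : ℂ), z ≠ (x₀ : ℂ) := by
    apply Filter.Eventually.filter_mono nhdsWithin_le_nhds
    refine isOpen_ne.mem_nhds ?_
    intro h
    have := congrArg Complex.re h
    rw [Complex.ofReal_re, Complex.ofReal_re] at this
    linarith
  have h10 : ∀ᶠ z in 𝓝[≠] (σ : ℂ), ‖Z z‖ ≤ ‖c‖ + 1 := by
    filter_upwards [h6, h8, h9] with z hz1 hz2 hz3
    rw [Pi.sub_apply, sub_eq_zero] at hz1
    rw [← hz1]
    exact (hb hz2 hz3).le
  have h11 : ‖Z σ‖ ≤ ‖c‖ + 1 := le_of_tendsto h7.norm h10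
  have h12 : Z σ = ((∑' k : ℕ, rtm q a σ k : ℝ) : ℂ) := by
    rw [hZ, Complex.ofReal_tsum]
    exact tsum_congr fun k => tm_ofReal σ k
  rw [h12, Complex.norm_real, Real.norm_of_nonneg (tsum_nonneg fun k => rtm_nonneg σ k)] at h11
  linarith

end pole

end Pool.Agent.X275.GZ
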