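import Mathlib

/-!
# Graphical groups and their class numbers

The graphical group scheme `G_Γ` of a finite simple graph, its group of points over a commutative
ring and the number of conjugacy classes in terms of the number of solutions of
`x_u x'_v = x_v x'_u`.
-/

set_option autoImplicit false

namespace Pool.Agent.X275.GZ

universe u v

/-- The edges `{u, v}` with `u < v` of a graph on a totally ordered vertex set. -/
def Edge {V : Type u} [LinearOrder V] (Γ : SimpleGraph V) : Type u :=
  {e : V × V // e.1 < e.2 ∧ Γ.Adj e.1 e.2}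

/-- The group `G_Γ(R)`, the set `R^V × R^E`. -/
@[ext]
structure GG {V : Type u} [LinearOrder V] (Γ : SimpleGraph V) (R : Type v) where
  /-- the component in `R^V` -/
  x : V → R
  /-- the component in `R^E` -/
  z : Edge Γ → R

section group

variable {V : Type u} [LinearOrder V] (Γ : SimpleGraph V) (R : Type v) [CommRing R]

/-- `(x, z) (x', z') = (x + x', z + z' + β(x, x'))` with `β(x, x')_{uv} = x_u x'_v` for `u < v`. -/
instance : Mul (GG Γ R) where
  mul g h := ⟨fun w => g.x w + h.x w, fun e => g.z e + h.z e + g.x e.1.1 * h.x e.1.2⟩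

instance : One (GG Γ R) where
  one := ⟨fun _ => 0, fun _ => 0⟩

instance : Inv (GG Γ R) where
  inv g := ⟨fun w => - g.x w, fun e => - g.z e + g.x e.1.1 * g.x e.1.2⟩

variable {Γ R}

lemma mul_x (g h : GG Γ R) (w : V) : (g * h).x w = g.x w + h.x w := rfl

lemma mul_z (g h : GG Γ R) (e : Edge Γ) :
    (g * h).z e = g.z e + h.z e + g.x e.1.1 * h.x e.1.2 := rfl

lemma one_x (w : V) : (1 : GG Γ R).x w = 0 := rfl

lemma one_z (e : Edge Γ) : (1 : GG Γ R).z e = 0 := rfl

lemma inv_x (g : GG Γ R) (w : V) : (g⁻¹).x w = - g.x w := rfl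

lemma inv_z (g : GG Γ R) (e : Edge Γ) : (g⁻¹).z e = - g.z e + g.x e.1.1 * g.x e.1.2 := rfl

instance : Group (GG Γ R) where
  mul_assoc a b c := by
    ext w
    · simp only [mul_x]; ring
    · simp only [mul_z, mul_x]; ring
  one_mul a := by
    ext w
    · simp only [mul_x, one_x]; ring
    · simp only [mul_z, one_z, one_x]; ring
  mul_one a := by
    ext w
    · simp only [mul_x, one_x]; ring
    · simp only [mul_z, one_z, one_x]; ring
  inv_mul_cancel a := by
    ext w
    · simp only [mul_x, inv_x, one_x]; ring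
    · simp only [mul_z, inv_z, inv_x, one_z]; ring

lemma commute_iff (g h : GG Γ R) :
    Commute g h ↔ ∀ e : Edge Γ, g.x e.1.1 * h.x e.1.2 = h.x e.1.1 * g.x e.1.2 := by
  constructor
  · intro H e
    have h1 := congrArg (fun t => GG.z t e) H.eq
    simp only [mul_z] at h1
    linear_combination h1
  · intro H
    show g * h = h * g
    ext w
    · simp only [mul_x]; ring
    · simp only [mul_z]; linear_combination H w

/-- The pairs `(x, x')` with `x_u x'_v = x_v x'_u` for all edges. -/
def Sol (Γ : SimpleGraph V) (R : Type v) [CommRing R] : Type (max u v) :=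
  {c : (V → R) × (V → R) // ∀ e : Edge Γ, c.1 e.1.1 * c.2 e.1.2 = c.2 e.1.1 * c.1 e.1.2}

/-- `GG` as a product. -/
def equivProd : GG Γ R ≃ (V → R) × (Edge Γ → R) where
  toFun g := (g.x, g.z)
  invFun c := ⟨c.1, c.2⟩
  left_inv _ := rfl
  right_inv _ := rfl

/-- Commuting pairs. -/
def equivComm : {c : GG Γ R × GG Γ R // Commute c.1 c.2} ≃
    Sol Γ R × ((Edge Γ → R) × (Edge Γ → R)) where
  toFun c := (⟨(c.1.1.x, c.1.2.x), (commute_iff _ _).mp c.2⟩, (c.1.1.z, c.1.2.z))
  invFun c := ⟨(⟨c.1.1.1, c.2.1⟩, ⟨c.1.1.2, c.2.2⟩), (commute_iff _ _).mpr c.1.2⟩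
  left_inv _ := rfl
  right_inv _ := rfl

lemma card_conj [Finite V] [Finite R] :
    Nat.card (ConjClasses (GG Γ R)) * (Nat.card R ^ Nat.card V * Nat.card R ^ Nat.card (Edge Γ))
      = Nat.card (Sol Γ R) * (Nat.card R ^ Nat.card (Edge Γ) * Nat.card R ^ Nat.card (Edge Γ)) := by
  have hE : Finite (Edge Γ) := by unfold Edge; infer_instance
  have h1 : Nat.card (GG Γ R) = Nat.card R ^ Nat.card V * Nat.card R ^ Nat.card (Edge Γ) := by
    rw [Nat.card_congr equivProd, Nat.card_prod, Nat.card_fun, Nat.card_fun]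
  have h2 := card_comm_eq_card_conjClasses_mul_card (GG Γ R)
  rw [← h1, ← h2, Nat.card_congr equivComm, Nat.card_prod, Nat.card_prod, Nat.card_fun]

end group

end Pool.Agent.X275.GZ
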