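import Pool.Agent.X275.GZ.Basic

/-!
# Counting in finite chain rings
-/

set_option autoImplicit false

namespace Pool.Agent.X275.GZ

open Finset

universe u v

/-- A finite chain ring with uniformizer `π`, `q` elements in the residue field and length `k`. -/
structure Chain (R : Type v) [CommRing R] (π : R) (q k : ℕ) : Prop where
  finite : Finite R
  exists_unit : ∀ x : R, ∃ a ≤ k, ∃ u : Rˣ, x = π ^ a * u
  card_dvd : ∀ b ≤ k, Nat.card {x : R // π ^ b ∣ x} = q ^ (k - b)
  two_le : 2 ≤ q

namespace Chain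

variable {R : Type v} [CommRing R] {π : R} {q k : ℕ}

lemma pos (h : Chain R π q k) : 0 < q := by have := h.two_le; omega

lemma card_R (h : Chain R π q k) : Nat.card R = q ^ k := by
  have h1 := h.card_dvd 0 (Nat.zero_le k)
  rw [Nat.sub_zero] at h1
  rw [← h1]
  exact (Nat.card_congr (Equiv.subtypeUnivEquiv (fun x => by simp))).symm

lemma pow_k (h : Chain R π q k) : π ^ k = 0 := by
  have h1 := h.card_dvd k le_rfl
  rw [Nat.sub_self, pow_zero, Nat.card_eq_one_iff_unique] at h1
  have h2 := h1.1
  have h3 := Subsingleton.elim (⟨π ^ k, dvd_refl _⟩ : {x : R // π ^ k ∣ x}) ⟨0, dvd_zero _⟩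
  exact congrArg Subtype.val h3

/-- The number of `t` with `π ^ a t = 0`. -/
lemma card_ker (h : Chain R π q k) {a : ℕ} (ha : a ≤ k) : Nat.card {t : R // π ^ a * t = 0} = q ^ a := by
  have := h.finite
  let f : R →+ R := AddMonoidHom.mulLeft (π ^ a)
  have h1 : Nat.card f.range * Nat.card f.ker = Nat.card R := by
    rw [mul_comm]
    have h2 := AddSubgroup.card_eq_card_quotient_mul_card_addSubgroup f.ker
    rw [h2, Nat.card_congr (QuotientAddGroup.quotientKerEquivRange f).toEquiv, mul_comm]
  have h3 : Nat.card f.range = q ^ (k - a) := by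
    rw [← h.card_dvd a ha]
    refine Nat.card_congr (Equiv.subtypeEquivRight fun x => ?_)
    rw [AddMonoidHom.mem_range]
    constructor
    · rintro ⟨y, rfl⟩; exact ⟨y, rfl⟩
    · rintro ⟨y, rfl⟩; exact ⟨y, rfl⟩
  have h4 : Nat.card f.ker = Nat.card {t : R // π ^ a * t = 0} :=
    Nat.card_congr (Equiv.subtypeEquivRight fun x => by rw [AddMonoidHom.mem_ker]; rfl)
  rw [h3, h4, h.card_R] at h1
  have h5 : q ^ (k - a) * q ^ a = q ^ k := by rw [← pow_add]; congr 1; omega
  exact Nat.eq_of_mul_eq_mul_left (pow_pos h.pos _) (h1.trans h5.symm)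

end Chain

/-- The pair `c` has valuation `a`. -/
def HasVal {R : Type v} [CommRing R] (π : R) (k : ℕ) (c : R × R) (a : ℕ) : Prop :=
  a ≤ k ∧ π ^ a ∣ c.1 ∧ π ^ a ∣ c.2 ∧
    ((∃ u : Rˣ, c.1 = π ^ a * u) ∨ (∃ u : Rˣ, c.2 = π ^ a * u))

/-- The determinant of two pairs. -/
def det2 {R : Type v} [CommRing R] (c d : R × R) : R := c.1 * d.2 - d.1 * c.2

lemma det2_swap {R : Type v} [CommRing R] (c d : R × R) : det2 d c = - det2 c d := by
  simp only [det2]; ring

section

variable {R : Type v} [CommRing R] {π : R} {q k : ℕ}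

lemma exists_hasVal (h : Chain R π q k) (c : R × R) : ∃ a : ℕ, HasVal π k c a := by
  obtain ⟨a, ha, u, hu⟩ := h.exists_unit c.1
  obtain ⟨b, hb, w, hw⟩ := h.exists_unit c.2
  rcases le_total a b with hab | hab
  · refine ⟨a, ha, ⟨u, hu⟩, ?_, Or.inl ⟨u, hu⟩⟩
    rw [hw]
    exact Dvd.dvd.mul_right (pow_dvd_pow _ hab) _
  · refine ⟨b, hb, ?_, ⟨w, hw⟩, Or.inr ⟨w, hw⟩⟩
    rw [hu]
    exact Dvd.dvd.mul_right (pow_dvd_pow _ hab) _

open Classical in
lemma card_filter_dvd (h : Chain R π q k) [Fintype R] {b : ℕ} (hb : b ≤ k) :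
    #{x : R | π ^ b ∣ x} = q ^ (k - b) := by
  rw [← h.card_dvd b hb, Nat.card_eq_fintype_card, Fintype.card_subtype]

open Classical in
lemma card_filter_ker (h : Chain R π q k) [Fintype R] {a : ℕ} (ha : a ≤ k) :
    #{t : R | π ^ a * t = 0} = q ^ a := by
  rw [← h.card_ker ha, Nat.card_eq_fintype_card, Fintype.card_subtype]

open Classical in
lemma card_pairs (h : Chain R π q k) [Fintype R] {b : ℕ} (hb : b ≤ k) :
    #{d : R × R | π ^ b ∣ d.1 ∧ π ^ b ∣ d.2} = q ^ (k - b) * q ^ (k - b) := by
  rw [← card_filter_dvd h hb, ← Finset.card_product]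
  congr 1
  ext d
  simp

open Classical in
/-- Solutions of a linear equation `π ^ a u t = s`. -/
lemma card_fiber (h : Chain R π q k) [Fintype R] {a : ℕ} (ha : a ≤ k) (u : Rˣ) (s : R) :
    #{t : R | π ^ a * u * t = s} ≤ q ^ a := by
  rcases Finset.eq_empty_or_nonempty ({t : R | π ^ a * u * t = s} : Finset R) with h0 | ⟨t0, ht0⟩
  · rw [h0, Finset.card_empty]; exact Nat.zero_le _
  · rw [← card_filter_ker h ha]
    refine Finset.card_le_card_of_injOn (fun t => t - t0) ?_ ?_
    · intro t ht
      simp only [Finset.coe_filter, Finset.mem_univ, true_and, Set.mem_ofPred_eq,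
        Finset.mem_filter] at ht ht0 ⊢
      have h1 : π ^ a * (u : R) * (t - t0) = 0 := by rw [mul_sub, ht, ht0, sub_self]
      have h2 : (u : R) * (π ^ a * (t - t0)) = 0 := by rw [← h1]; ring
      exact (Units.mul_right_eq_zero u).mp h2
    · intro t _ t' _ h2
      exact sub_left_injective h2

open Classical in
/-- The number of `d` divisible by `π ^ b` with `det (c, d) = 0`. -/
lemma card_det (h : Chain R π q k) [Fintype R] {a b : ℕ} (hb : b ≤ k) {c : R × R}
    (hc : HasVal π k c a) :
    #{d : R × R | (π ^ b ∣ d.1 ∧ π ^ b ∣ d.2) ∧ det2 c d = 0} ≤ q ^ (k - b + a) := by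
  obtain ⟨ha, -, -, ⟨u, hu⟩ | ⟨u, hu⟩⟩ := hc
  · rw [pow_add, mul_comm, ← card_filter_dvd h hb]
    refine Finset.card_le_mul_card_image_of_maps_to (f := fun d : R × R => d.1) ?_ _ ?_
    · intro d hd
      simp only [Finset.mem_filter, Finset.mem_univ, true_and] at hd ⊢
      exact hd.1.1
    · intro x _
      refine le_trans ?_ (card_fiber h ha u (x * c.2))
      refine Finset.card_le_card_of_injOn (fun d => d.2) ?_ ?_
      · intro d hd
        simp only [Finset.coe_filter, Finset.mem_filter, Finset.mem_univ, true_and,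
          Set.mem_ofPred_eq] at hd ⊢
        have h1 := hd.1.2
        rw [det2, hd.2, hu] at h1
        linear_combination h1
      · intro d hd d' hd' h2
        simp only [Finset.coe_filter, Finset.mem_filter, Finset.mem_univ, true_and,
          Set.mem_ofPred_eq] at hd hd'
        exact Prod.ext (hd.2.trans hd'.2.symm) h2
  · rw [pow_add, mul_comm, ← card_filter_dvd h hb]
    refine Finset.card_le_mul_card_image_of_maps_to (f := fun d : R × R => d.2) ?_ _ ?_
    · intro d hd
      simp only [Finset.mem_filter, Finset.mem_univ, true_and] at hd ⊢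
      exact hd.1.2
    · intro x _
      refine le_trans ?_ (card_fiber h ha u (c.1 * x))
      refine Finset.card_le_card_of_injOn (fun d => d.1) ?_ ?_
      · intro d hd
        simp only [Finset.coe_filter, Finset.mem_filter, Finset.mem_univ, true_and,
          Set.mem_ofPred_eq] at hd ⊢
        have h1 := hd.1.2
        rw [det2, hd.2, hu] at h1
        linear_combination - h1
      · intro d hd d' hd' h2
        simp only [Finset.coe_filter, Finset.mem_filter, Finset.mem_univ, true_and,
          Set.mem_ofPred_eq] at hd hd'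
        exact Prod.ext h2 (hd.2.trans hd'.2.symm)

open Classical in
/-- Lower bound for the number of `d` divisible by `π ^ b` with `det (c, d) = 0`, when `c` is
divisible by `π ^ a`. -/
lemma card_det_ge (h : Chain R π q k) [Fintype R] {a b : ℕ} (hab : a + b ≤ k) {c : R × R}
    (hc : π ^ a ∣ c.1 ∧ π ^ a ∣ c.2) :
    q ^ (k - b + a) ≤ #{d : R × R | (π ^ b ∣ d.1 ∧ π ^ b ∣ d.2) ∧ det2 c d = 0} := by
  have h1 : #{d : R × R | π ^ b ∣ d.1 ∧ π ^ b ∣ d.2} ≤
      #{d : R × R | (π ^ b ∣ d.1 ∧ π ^ b ∣ d.2) ∧ det2 c d = 0} * #{x : R | π ^ (a + b) ∣ x} := by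
    refine Finset.card_le_mul_card_image_of_maps_to (f := fun d : R × R => det2 c d) ?_ _ ?_
    · intro d hd
      simp only [Finset.mem_filter, Finset.mem_univ, true_and] at hd ⊢
      rw [det2, pow_add]
      refine dvd_sub (mul_dvd_mul hc.1 hd.2) ?_
      rw [mul_comm (π ^ a)]
      exact mul_dvd_mul hd.1 hc.2
    · intro s _
      rcases Finset.eq_empty_or_nonempty
        {d ∈ ({d : R × R | π ^ b ∣ d.1 ∧ π ^ b ∣ d.2} : Finset (R × R)) | det2 c d = s}
        with h0 | ⟨d0, hd0⟩
      · rw [h0, Finset.card_empty]; exact Nat.zero_le _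
      · refine Finset.card_le_card_of_injOn (fun d => d - d0) ?_ ?_
        · intro d hd
          simp only [Finset.coe_filter, Finset.mem_filter, Finset.mem_univ, true_and,
            Set.mem_ofPred_eq, Prod.fst_sub, Prod.snd_sub] at hd hd0 ⊢
          refine ⟨⟨dvd_sub hd.1.1 hd0.1.1, dvd_sub hd.1.2 hd0.1.2⟩, ?_⟩
          have h2 := hd.2
          have h3 := hd0.2
          simp only [det2, Prod.fst_sub, Prod.snd_sub] at h2 h3 ⊢
          linear_combination h2 - h3
        · intro t _ t' _ h2
          exact sub_left_injective h2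
  rw [card_pairs h (by omega), card_filter_dvd h hab] at h1
  have h2 : q ^ (k - b) * q ^ (k - b) = q ^ (k - b + a) * q ^ (k - (a + b)) := by
    rw [← pow_add, ← pow_add]; congr 1; omega
  rw [h2] at h1
  exact Nat.le_of_mul_le_mul_right h1 (pow_pos h.pos _)

end

/-! ### Sequential counting -/

section mask

variable {V X : Type*} [DecidableEq V] [Zero X]

/-- Forget the values outside `T`. -/
def mask (T : Finset V) (p : V → X) : V → X := fun v => if v ∈ T then p v else 0

lemma mask_mask (T : Finset V) (v : V) (p : V → X) : mask T (mask (insert v T) p) = mask T p := by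
  funext w
  simp only [mask]
  by_cases hw : w ∈ T
  · simp [hw]
  · simp [hw]

open Classical in
lemma mask_step (S : Finset (V → X)) (T : Finset V) (v : V) (c : ℕ)
    (h : ∀ p ∈ S, #((S.filter (fun p' => ∀ u ∈ T, p' u = p u)).image (fun p' => p' v)) ≤ c) :
    #(S.image (mask (insert v T))) ≤ c * #(S.image (mask T)) := by
  refine Finset.card_le_mul_card_image_of_maps_to (f := mask T) ?_ _ ?_
  · intro m hm
    obtain ⟨p, hp, rfl⟩ := Finset.mem_image.mp hm
    rw [mask_mask]
    exact Finset.mem_image_of_mem _ hp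
  · intro b hb
    obtain ⟨p, hp, rfl⟩ := Finset.mem_image.mp hb
    refine le_trans ?_ (h p hp)
    refine Finset.card_le_card_of_injOn (fun m => m v) ?_ ?_
    · intro m hm
      rw [Finset.mem_coe, Finset.mem_filter] at hm
      obtain ⟨p', hp', rfl⟩ := Finset.mem_image.mp hm.1
      rw [Finset.mem_coe, Finset.mem_image]
      refine ⟨p', Finset.mem_filter.mpr ⟨hp', fun u hu => ?_⟩, ?_⟩
      · have h1 := congrFun hm.2 u
        rw [mask_mask] at h1
        simpa [mask, hu] using h1
      · simp [mask]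
    · intro m hm m' hm' h2
      rw [Finset.mem_coe, Finset.mem_filter] at hm hm'
      obtain ⟨p', hp', rfl⟩ := Finset.mem_image.mp hm.1
      obtain ⟨p'', hp'', rfl⟩ := Finset.mem_image.mp hm'.1
      have h3 := hm.2.trans hm'.2.symm
      rw [mask_mask, mask_mask] at h3
      funext w
      by_cases hwv : w = v
      · rw [hwv]; exact h2
      · by_cases hw : w ∈ T
        · have h4 := congrFun h3 w
          simpa [mask, hw, hwv] using h4
        · simp [mask, hw, hwv]

/-- The step lemma for sets. -/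
lemma mask_step' [Finite V] [Finite X] (S : Set (V → X)) (T : Finset V) (v : V) (c : ℕ)
    (h : ∀ p ∈ S, {d : X | ∃ p' ∈ S, (∀ u ∈ T, p' u = p u) ∧ p' v = d}.ncard ≤ c) :
    (mask (insert v T) '' S).ncard ≤ c * (mask T '' S).ncard := by
  classical
  obtain ⟨S', rfl⟩ := (Set.toFinite S).exists_finset_coe
  have h1 := mask_step S' T v c ?_
  · rw [← Finset.coe_image, ← Finset.coe_image, Set.ncard_coe_finset, Set.ncard_coe_finset]
    convert h1
  · intro p hp
    have h2 := h p hp
    refine le_trans (le_of_eq ?_) h2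
    rw [← Set.ncard_coe_finset]
    congr 1
    ext d
    simp [and_assoc]

end mask

end Pool.Agent.X275.GZ
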