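import Pool.Agent.X275.GZ.Chain

/-!
# Forest bounds for the number of solutions
-/

set_option autoImplicit false

namespace Pool.Agent.X275.GZ

open Finset

universe u v

section forest

variable {V : Type u} [Fintype V] [DecidableEq V] {R : Type v} [CommRing R] [Fintype R] {π : R}
  {q k : ℕ}

/-- The families of pairs with given valuations and determinants `0` along edges. -/
def SS (adj : V → V → Prop) (π : R) (k : ℕ) (a : V → ℕ) : Set (V → R × R) :=
  {p | (∀ v, HasVal π k (p v) (a v)) ∧ ∀ u v, adj u v → det2 (p u) (p v) = 0}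

/-- The vertices of a list of steps. -/
def verts : List (V × Option V) → Finset V
  | [] => ∅
  | s :: l => insert s.1 (verts l)

/-- The list of steps (the last step first) is a forest: the parent of a vertex occurs before. -/
def Valid (adj : V → V → Prop) : List (V × Option V) → Prop
  | [] => True
  | (_, none) :: l => Valid adj l
  | (v, some u) :: l => u ∈ verts l ∧ adj u v ∧ Valid adj l

/-- The cost of a forest. -/
def cost (k : ℕ) (a : V → ℕ) : List (V × Option V) → ℕ
  | [] => 0
  | (v, none) :: l => (k - a v) + (k - a v) + cost k a l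
  | (v, some u) :: l => (k - a v + a u) + cost k a l

lemma ncard_le_filter {X : Type*} [Fintype X] (A : Set X) (P : X → Prop) [DecidablePred P]
    (h : ∀ d ∈ A, P d) : A.ncard ≤ #{d : X | P d} := by
  rw [← Set.ncard_coe_finset]
  refine Set.ncard_le_ncard ?_ (Set.toFinite _)
  intro d hd
  simpa using h d hd

lemma card_image_le (h : Chain R π q k) (adj : V → V → Prop) (a : V → ℕ) (ha : ∀ v, a v ≤ k)
    (l : List (V × Option V)) (hl : Valid adj l) :
    (mask (verts l) '' SS adj π k a).ncard ≤ q ^ cost k a l := by
  classical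
  induction l with
  | nil =>
    have h1 : mask (verts ([] : List (V × Option V))) '' SS adj π k a ⊆ {fun _ => 0} := by
      rintro m ⟨p, -, rfl⟩
      rw [Set.mem_singleton_iff]
      funext w
      simp [mask, verts]
    refine (Set.ncard_le_ncard h1 (Set.finite_singleton _)).trans ?_
    rw [Set.ncard_singleton]
    exact Nat.one_le_pow _ _ h.pos
  | cons s l ih =>
    obtain ⟨v, o⟩ := s
    cases o with
    | none =>
      have hl' : Valid adj l := hl
      have e1 : cost k a ((v, none) :: l) = (k - a v) + (k - a v) + cost k a l := rfl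
      have e2 : verts ((v, none) :: l) = insert v (verts l) := rfl
      rw [e1, e2, pow_add]
      refine (mask_step' (SS adj π k a) (verts l) v (q ^ ((k - a v) + (k - a v))) ?_).trans
        (Nat.mul_le_mul_left _ (ih hl'))
      intro p hp
      rw [pow_add, ← card_pairs h (ha v)]
      refine ncard_le_filter _ _ ?_
      rintro d ⟨p', hp', -, rfl⟩
      exact ⟨(hp'.1 v).2.1, (hp'.1 v).2.2.1⟩
    | some u =>
      obtain ⟨hu, huv, hl'⟩ := (hl : u ∈ verts l ∧ adj u v ∧ Valid adj l)
      have e1 : cost k a ((v, some u) :: l) = (k - a v + a u) + cost k a l := rfl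
      have e2 : verts ((v, some u) :: l) = insert v (verts l) := rfl
      rw [e1, e2, pow_add]
      refine (mask_step' (SS adj π k a) (verts l) v (q ^ (k - a v + a u)) ?_).trans
        (Nat.mul_le_mul_left _ (ih hl'))
      intro p hp
      refine le_trans ?_ (card_det h (ha v) (hp.1 u))
      refine ncard_le_filter _ _ ?_
      rintro d ⟨p', hp', h2, rfl⟩
      refine ⟨⟨(hp'.1 v).2.1, (hp'.1 v).2.2.1⟩, ?_⟩
      rw [← h2 u hu]
      exact hp'.2 u v huv

lemma card_SS_le (h : Chain R π q k) (adj : V → V → Prop) (a : V → ℕ) (ha : ∀ v, a v ≤ k)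
    (l : List (V × Option V)) (hl : Valid adj l) (hv : verts l = Finset.univ) :
    (SS adj π k a).ncard ≤ q ^ cost k a l := by
  refine le_trans ?_ (card_image_le h adj a ha l hl)
  rw [hv]
  have : (mask (Finset.univ : Finset V) : (V → R × R) → (V → R × R)) = id := by
    funext p w
    simp [mask]
  rw [this, Set.image_id]

end forest

section sol

variable {V : Type u} [Fintype V] [LinearOrder V] {R : Type v} [CommRing R] {π : R} {q k : ℕ}

/-- Solutions as families of pairs. -/
def equivSol (Γ : SimpleGraph V) :
    Sol Γ R ≃ {p : V → R × R // ∀ e : Edge Γ, det2 (p e.1.1) (p e.1.2) = 0} where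
  toFun c := ⟨fun v => (c.1.1 v, c.1.2 v), fun e => by
    have h := c.2 e
    simp only [det2]
    linear_combination h⟩
  invFun p := ⟨(fun v => (p.1 v).1, fun v => (p.1 v).2), fun e => by
    have h := p.2 e
    simp only [det2] at h
    linear_combination h⟩
  left_inv _ := rfl
  right_inv _ := rfl

omit [Fintype V] in
lemma det_of_adj (Γ : SimpleGraph V) (p : V → R × R)
    (hp : ∀ e : Edge Γ, det2 (p e.1.1) (p e.1.2) = 0) (u v : V) (huv : Γ.Adj u v) :
    det2 (p u) (p v) = 0 := by
  rcases lt_trichotomy u v with h | h | h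
  · exact hp ⟨(u, v), h, huv⟩
  · exact absurd (h ▸ huv) (SimpleGraph.irrefl Γ)
  · rw [det2_swap, neg_eq_zero]
    exact hp ⟨(v, u), h, huv.symm⟩

lemma card_sol_le (h : Chain R π q k) (Γ : SimpleGraph V) (M : ℕ)
    (H : ∀ (a : V → ℕ), (∀ v, a v ≤ k) → (SS Γ.Adj π k a).ncard ≤ M) :
    Nat.card (Sol Γ R) ≤ (k + 1) ^ Fintype.card V * M := by
  classical
  have := h.finite
  have := Fintype.ofFinite R
  rw [Nat.card_congr (equivSol Γ), Nat.card_eq_fintype_card, Fintype.card_subtype]
  have hcard : #(Fintype.piFinset fun _ : V => Finset.range (k + 1)) = (k + 1) ^ Fintype.card V := by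
    rw [Fintype.card_piFinset]
    simp
  rw [← hcard]
  refine le_trans (Finset.card_le_card (t := (Fintype.piFinset fun _ : V =>
    Finset.range (k + 1)).biUnion fun a => (Set.toFinite (SS Γ.Adj π k a)).toFinset) ?_)
    (Finset.card_biUnion_le_card_mul _ _ _ ?_)
  · intro p hp
    have hp' : ∀ e : Edge Γ, det2 (p e.1.1) (p e.1.2) = 0 := by simpa using hp
    choose a ha using fun v => exists_hasVal h (p v)
    rw [Finset.mem_biUnion]
    refine ⟨a, ?_, ?_⟩
    · rw [Fintype.mem_piFinset]
      intro v
      rw [Finset.mem_range]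
      have := (ha v).1
      omega
    · rw [Set.Finite.mem_toFinset]
      exact ⟨ha, det_of_adj Γ p hp'⟩
  · intro a ha
    rw [← Set.ncard_eq_toFinset_card _ (Set.toFinite (SS Γ.Adj π k a))]
    refine H a fun v => ?_
    have := Fintype.mem_piFinset.mp ha v
    rw [Finset.mem_range] at this
    omega

end sol

end Pool.Agent.X275.GZ
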