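import Pool.Agent.X275.GZ.Forest

/-!
# The complete graph on four vertices with a pendant edge at each vertex
-/

set_option autoImplicit false

namespace Pool.Agent.X275.GZ

open Finset

universe u v

/-- The complete graph on `0, 1, 2, 3` with pendant vertices `4, 5, 6, 7` attached to
`0, 1, 2, 3`. -/
def G8 : SimpleGraph (Fin 8) where
  Adj u v := u ≠ v ∧ ((u.val < 4 ∧ v.val < 4) ∨ u.val = v.val + 4 ∨ v.val = u.val + 4)
  symm := ⟨fun u v h => by
    obtain ⟨h1, h2⟩ := h
    refine ⟨h1.symm, ?_⟩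
    tauto⟩
  loopless := ⟨fun u h => h.1 rfl⟩

instance : DecidableRel G8.Adj := fun u v =>
  inferInstanceAs (Decidable (u ≠ v ∧ ((u.val < 4 ∧ v.val < 4) ∨ u.val = v.val + 4 ∨
    v.val = u.val + 4)))

lemma card_edge8 : Nat.card (Edge G8) = 10 := by
  rw [Edge, Nat.card_eq_fintype_card]
  decide

/-- The pendant edges. -/
def P8 (l : List (Fin 8 × Option (Fin 8))) : List (Fin 8 × Option (Fin 8)) :=
  (7, some 3) :: (6, some 2) :: (5, some 1) :: (4, some 0) :: l

section

variable {R : Type v} [CommRing R] {π : R} {q k : ℕ}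

lemma SS8_le [Fintype R] (h : Chain R π q k) (a : Fin 8 → ℕ) (ha : ∀ v, a v ≤ k) :
    (SS G8.Adj π k a).ncard ≤ q ^ (10 * k) := by
  have c0 := card_SS_le h G8.Adj a ha (P8 [(3, none), (2, none), (1, none), (0, none)])
    (by simp only [P8, Valid, verts]; decide) (by simp only [P8, verts]; decide)
  have c1 := card_SS_le h G8.Adj a ha (P8 [(3, some 0), (2, some 0), (1, some 0), (0, none)])
    (by simp only [P8, Valid, verts]; decide) (by simp only [P8, verts]; decide)
  have c2 := card_SS_le h G8.Adj a ha (P8 [(3, some 1), (2, some 1), (0, some 1), (1, none)])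
    (by simp only [P8, Valid, verts]; decide) (by simp only [P8, verts]; decide)
  have c3 := card_SS_le h G8.Adj a ha (P8 [(3, some 2), (1, some 2), (0, some 2), (2, none)])
    (by simp only [P8, Valid, verts]; decide) (by simp only [P8, verts]; decide)
  have c4 := card_SS_le h G8.Adj a ha (P8 [(2, some 3), (1, some 3), (0, some 3), (3, none)])
    (by simp only [P8, Valid, verts]; decide) (by simp only [P8, verts]; decide)
  have key : cost k a (P8 [(3, none), (2, none), (1, none), (0, none)]) ≤ 10 * k ∨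
      cost k a (P8 [(3, some 0), (2, some 0), (1, some 0), (0, none)]) ≤ 10 * k ∨
      cost k a (P8 [(3, some 1), (2, some 1), (0, some 1), (1, none)]) ≤ 10 * k ∨
      cost k a (P8 [(3, some 2), (1, some 2), (0, some 2), (2, none)]) ≤ 10 * k ∨
      cost k a (P8 [(2, some 3), (1, some 3), (0, some 3), (3, none)]) ≤ 10 * k := by
    simp only [P8, cost]
    have h0 := ha 0
    have h1 := ha 1
    have h2 := ha 2
    have h3 := ha 3
    have h4 := ha 4
    have h5 := ha 5
    have h6 := ha 6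
    have h7 := ha 7
    omega
  rcases key with h' | h' | h' | h' | h'
  · exact c0.trans (Nat.pow_le_pow_right h.pos h')
  · exact c1.trans (Nat.pow_le_pow_right h.pos h')
  · exact c2.trans (Nat.pow_le_pow_right h.pos h')
  · exact c3.trans (Nat.pow_le_pow_right h.pos h')
  · exact c4.trans (Nat.pow_le_pow_right h.pos h')

lemma SS8_le_one [Fintype R] (h : Chain R π q 1) (a : Fin 8 → ℕ) (ha : ∀ v, a v ≤ 1) :
    (SS G8.Adj π 1 a).ncard ≤ q ^ 9 := by
  have c0 := card_SS_le h G8.Adj a ha (P8 [(3, none), (2, none), (1, none), (0, none)])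
    (by simp only [P8, Valid, verts]; decide) (by simp only [P8, verts]; decide)
  have c1 := card_SS_le h G8.Adj a ha (P8 [(3, some 0), (2, some 0), (1, some 0), (0, none)])
    (by simp only [P8, Valid, verts]; decide) (by simp only [P8, verts]; decide)
  have c2 := card_SS_le h G8.Adj a ha (P8 [(3, some 1), (2, some 1), (0, some 1), (1, none)])
    (by simp only [P8, Valid, verts]; decide) (by simp only [P8, verts]; decide)
  have c3 := card_SS_le h G8.Adj a ha (P8 [(3, some 2), (1, some 2), (0, some 2), (2, none)])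
    (by simp only [P8, Valid, verts]; decide) (by simp only [P8, verts]; decide)
  have c4 := card_SS_le h G8.Adj a ha (P8 [(2, some 3), (1, some 3), (0, some 3), (3, none)])
    (by simp only [P8, Valid, verts]; decide) (by simp only [P8, verts]; decide)
  have key : cost 1 a (P8 [(3, none), (2, none), (1, none), (0, none)]) ≤ 9 ∨
      cost 1 a (P8 [(3, some 0), (2, some 0), (1, some 0), (0, none)]) ≤ 9 ∨
      cost 1 a (P8 [(3, some 1), (2, some 1), (0, some 1), (1, none)]) ≤ 9 ∨
      cost 1 a (P8 [(3, some 2), (1, some 2), (0, some 2), (2, none)]) ≤ 9 ∨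
      cost 1 a (P8 [(2, some 3), (1, some 3), (0, some 3), (3, none)]) ≤ 9 := by
    simp only [P8, cost]
    have h0 := ha 0
    have h1 := ha 1
    have h2 := ha 2
    have h3 := ha 3
    have h4 := ha 4
    have h5 := ha 5
    have h6 := ha 6
    have h7 := ha 7
    omega
  rcases key with h' | h' | h' | h' | h'
  · exact c0.trans (Nat.pow_le_pow_right h.pos h')
  · exact c1.trans (Nat.pow_le_pow_right h.pos h')
  · exact c2.trans (Nat.pow_le_pow_right h.pos h')
  · exact c3.trans (Nat.pow_le_pow_right h.pos h')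
  · exact c4.trans (Nat.pow_le_pow_right h.pos h')

lemma sol8_le (h : Chain R π q k) :
    Nat.card (Sol G8 R) ≤ (k + 1) ^ 8 * q ^ (10 * k) := by
  have := h.finite
  have := Fintype.ofFinite R
  exact card_sol_le h G8 _ (fun a ha => SS8_le h a ha)

lemma sol8_le_one (h : Chain R π q 1) : Nat.card (Sol G8 R) ≤ 2 ^ 8 * q ^ 9 := by
  have := h.finite
  have := Fintype.ofFinite R
  exact card_sol_le h G8 _ (fun a ha => SS8_le_one h a ha)

/-- The family giving the lower bound. -/
def fam (c : Fin 4 → {c : R × R // π ∣ c.1 ∧ π ∣ c.2})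
    (d : (i : Fin 4) → {d : R × R // det2 (c i).1 d = 0}) (v : Fin 8) : R × R :=
  if h : v.val < 4 then (c ⟨v.val, h⟩).1 else (d ⟨v.val - 4, by omega⟩).1

lemma fam_lt (c : Fin 4 → {c : R × R // π ∣ c.1 ∧ π ∣ c.2})
    (d : (i : Fin 4) → {d : R × R // det2 (c i).1 d = 0}) (i : Fin 4) :
    fam c d ⟨i.val, by omega⟩ = (c i).1 := by
  rw [fam, dif_pos i.2]

lemma fam_ge (c : Fin 4 → {c : R × R // π ∣ c.1 ∧ π ∣ c.2})
    (d : (i : Fin 4) → {d : R × R // det2 (c i).1 d = 0}) (i : Fin 4) :
    fam c d ⟨i.val + 4, by omega⟩ = (d i).1 := by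
  rw [fam, dif_neg (by simp)]
  congr 2

lemma fam_sol (h : Chain R π q 2) (c : Fin 4 → {c : R × R // π ∣ c.1 ∧ π ∣ c.2})
    (d : (i : Fin 4) → {d : R × R // det2 (c i).1 d = 0}) (e : Edge G8) :
    det2 (fam c d e.1.1) (fam c d e.1.2) = 0 := by
  obtain ⟨⟨u, v⟩, huv, -, h2⟩ := e
  simp only at h2 huv ⊢
  have huv' : u.val < v.val := huv
  rcases h2 with ⟨h3, h4⟩ | h3 | h3
  · have e1 := fam_lt c d ⟨u.val, h3⟩
    have e2 := fam_lt c d ⟨v.val, h4⟩
    simp only [Fin.eta] at e1 e2
    rw [e1, e2]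
    obtain ⟨⟨x, hx⟩, ⟨x', hx'⟩⟩ := (c ⟨u.val, h3⟩).2
    obtain ⟨⟨y, hy⟩, ⟨y', hy'⟩⟩ := (c ⟨v.val, h4⟩).2
    rw [det2, hx, hx', hy, hy']
    have h5 := h.pow_k
    linear_combination (x * y' - y * x') * h5
  · omega
  · have hu4 : u.val < 4 := by omega
    have e1 := fam_lt c d ⟨u.val, hu4⟩
    have e2 := fam_ge c d ⟨u.val, hu4⟩
    have e3 : (⟨u.val + 4, by omega⟩ : Fin 8) = v := Fin.ext h3.symm
    simp only [e3] at e2
    simp only [Fin.eta] at e1
    rw [e1, e2]
    exact (d ⟨u.val, hu4⟩).2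

/-- The injection of the family. -/
def famMap (h : Chain R π q 2) :
    (Σ c : Fin 4 → {c : R × R // π ∣ c.1 ∧ π ∣ c.2},
      (i : Fin 4) → {d : R × R // det2 (c i).1 d = 0}) →
    {p : Fin 8 → R × R // ∀ e : Edge G8, det2 (p e.1.1) (p e.1.2) = 0} :=
  fun s => ⟨fam s.1 s.2, fam_sol h s.1 s.2⟩

lemma famMap_inj (h : Chain R π q 2) : Function.Injective (famMap h) := by
  rintro ⟨c, d⟩ ⟨c', d'⟩ H
  have H1 : fam c d = fam c' d' := congrArg Subtype.val H
  have hc : c = c' := by
    funext i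
    have := congrFun H1 ⟨i.val, by omega⟩
    rw [fam_lt, fam_lt] at this
    exact Subtype.ext this
  subst hc
  have hd : d = d' := by
    funext i
    have := congrFun H1 ⟨i.val + 4, by omega⟩
    rw [fam_ge, fam_ge] at this
    exact Subtype.ext this
  rw [hd]

lemma card_ker_ge (h : Chain R π q 2) (c : {c : R × R // π ∣ c.1 ∧ π ∣ c.2}) :
    q ^ 3 ≤ Nat.card {d : R × R // det2 c.1 d = 0} := by
  classical
  have := h.finite
  have := Fintype.ofFinite R
  have h1 := card_det_ge h (a := 1) (b := 0) (by norm_num) (c := c.1) (by simpa using c.2)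
  rw [Nat.card_eq_fintype_card, Fintype.card_subtype]
  refine le_trans h1 (Finset.card_le_card ?_)
  intro d hd
  simp only [Finset.mem_filter, Finset.mem_univ, true_and] at hd ⊢
  exact hd.2

lemma card_C (h : Chain R π q 2) : Nat.card {c : R × R // π ∣ c.1 ∧ π ∣ c.2} = q ^ 2 := by
  classical
  have := h.finite
  have := Fintype.ofFinite R
  have h1 := card_pairs h (b := 1) (by norm_num)
  rw [Nat.card_eq_fintype_card, Fintype.card_subtype]
  simp only [pow_one] at h1
  rw [h1]
  norm_num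
  ring

lemma sol8_ge (h : Chain R π q 2) : q ^ 20 ≤ Nat.card (Sol G8 R) := by
  have := h.finite
  rw [Nat.card_congr (equivSol G8)]
  have h1 := Nat.card_le_card_of_injective (famMap h) (famMap_inj h)
  refine le_trans ?_ h1
  have : Fintype (Fin 4 → {c : R × R // π ∣ c.1 ∧ π ∣ c.2}) := Fintype.ofFinite _
  rw [Nat.card_sigma]
  have h2 : ∀ c : Fin 4 → {c : R × R // π ∣ c.1 ∧ π ∣ c.2},
      q ^ 12 ≤ Nat.card ((i : Fin 4) → {d : R × R // det2 (c i).1 d = 0}) := by
    intro c
    rw [Nat.card_pi]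
    calc q ^ 12 = ∏ _i : Fin 4, q ^ 3 := by simp [← pow_mul]
      _ ≤ _ := Finset.prod_le_prod' fun i _ => card_ker_ge h (c i)
  calc q ^ 20 = q ^ 8 * q ^ 12 := by rw [← pow_add]
    _ = ∑ _c : Fin 4 → {c : R × R // π ∣ c.1 ∧ π ∣ c.2}, q ^ 12 := by
      rw [Finset.sum_const, Finset.card_univ, smul_eq_mul, ← Nat.card_eq_fintype_card,
        Nat.card_fun, card_C h, Nat.card_eq_fintype_card, Fintype.card_fin, ← pow_mul]
    _ ≤ _ := Finset.sum_le_sum fun c _ => h2 c

end

end Pool.Agent.X275.GZ
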