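import Pool.Agent.X275.GZ.Forest

/-!
# A graph on nine vertices with third-integral exponents
-/

set_option autoImplicit false

namespace Pool.Agent.X275.GZ

open Finset

universe u v

/-- The edges of `G9`. -/
def L9 : List (Fin 9 × Fin 9) :=
  [(0, 4), (0, 5), (0, 6), (1, 2), (1, 3), (1, 6), (1, 7), (2, 3), (2, 5), (3, 4), (6, 8)]

/-- The graph on `0, …, 8` with edges `04, 05, 06, 12, 13, 16, 17, 23, 25, 34, 68`. -/
def G9 : SimpleGraph (Fin 9) where
  Adj u v := (u, v) ∈ L9 ∨ (v, u) ∈ L9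
  symm := ⟨fun _ _ h => h.symm⟩
  loopless := ⟨by
    intro u h
    revert u
    decide⟩

instance : DecidableRel G9.Adj := fun u v =>
  inferInstanceAs (Decidable ((u, v) ∈ L9 ∨ (v, u) ∈ L9))

lemma card_edge9 : Nat.card (Edge G9) = 11 := by
  rw [Edge, Nat.card_eq_fintype_card]
  decide

section

variable {R : Type v} [CommRing R] {π : R} {q k : ℕ}

lemma SS9_le [Fintype R] (h : Chain R π q k) (a : Fin 9 → ℕ) (ha : ∀ v, a v ≤ k) :
    (SS G9.Adj π k a).ncard ≤ q ^ (31 * k / 3) := by
  have c0 := card_SS_le h G9.Adj a ha [(8, some 6), (7, some 1), (1, some 2), (6, some 0),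
    (0, some 5), (5, some 2), (2, some 3), (4, some 3), (3, none)]
    (by simp only [Valid, verts]; decide) (by simp only [verts]; decide)
  have c1 := card_SS_le h G9.Adj a ha [(8, some 6), (7, some 1), (1, some 3), (6, some 0),
    (0, some 4), (5, some 2), (2, some 3), (4, some 3), (3, none)]
    (by simp only [Valid, verts]; decide) (by simp only [verts]; decide)
  have c2 := card_SS_le h G9.Adj a ha [(8, some 6), (7, some 1), (6, some 1), (1, none),
    (2, some 5), (5, some 0), (0, some 4), (4, some 3), (3, none)]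
    (by simp only [Valid, verts]; decide) (by simp only [verts]; decide)
  have key : 3 * cost k a [(8, some 6), (7, some 1), (1, some 2), (6, some 0),
    (0, some 5), (5, some 2), (2, some 3), (4, some 3), (3, none)] ≤ 31 * k ∨
      3 * cost k a [(8, some 6), (7, some 1), (1, some 3), (6, some 0),
    (0, some 4), (5, some 2), (2, some 3), (4, some 3), (3, none)] ≤ 31 * k ∨
      3 * cost k a [(8, some 6), (7, some 1), (6, some 1), (1, none),
    (2, some 5), (5, some 0), (0, some 4), (4, some 3), (3, none)] ≤ 31 * k := by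
    simp only [cost]
    have h0 := ha 0
    have h1 := ha 1
    have h2 := ha 2
    have h3 := ha 3
    have h4 := ha 4
    have h5 := ha 5
    have h6 := ha 6
    have h7 := ha 7
    have h8 := ha 8
    omega
  rcases key with h' | h' | h'
  · exact c0.trans (Nat.pow_le_pow_right h.pos (by omega))
  · exact c1.trans (Nat.pow_le_pow_right h.pos (by omega))
  · exact c2.trans (Nat.pow_le_pow_right h.pos (by omega))

lemma sol9_le (h : Chain R π q k) :
    Nat.card (Sol G9 R) ≤ (k + 1) ^ 9 * q ^ (31 * k / 3) := by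
  have := h.finite
  have := Fintype.ofFinite R
  exact card_sol_le h G9 _ (fun a ha => SS9_le h a ha)

lemma sol_of_L9 (p : Fin 9 → R × R) (hp : ∀ e ∈ L9, det2 (p e.1) (p e.2) = 0) (e : Edge G9) :
    det2 (p e.1.1) (p e.1.2) = 0 := by
  obtain ⟨⟨u, v⟩, huv, h | h⟩ := e
  · exact hp _ h
  · have := hp _ h
    rw [det2_swap, neg_eq_zero]
    exact this

/-! ### The lower bound -/

variable {j : ℕ}

/-- The triples `(p₂, p₃, p₀)`. -/
def TT (π : R) (j : ℕ) : Set ((R × R) × (R × R) × (R × R)) :=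
  {t | (π ^ j ∣ t.1.1 ∧ π ^ j ∣ t.1.2) ∧ (π ^ j ∣ t.2.1.1 ∧ π ^ j ∣ t.2.1.2) ∧
    det2 t.1 t.2.1 = 0 ∧ (∃ s : R, t.2.2 = (π ^ j * s * t.1.1, π ^ j * s * t.1.2)) ∧
    (∃ s : R, t.2.2 = (π ^ j * s * t.2.1.1, π ^ j * s * t.2.1.2))}

open Classical in
lemma card_unit_mult [Fintype R] (h : Chain R π q (3 * j)) (hj : 1 ≤ j) :
    q ^ (2 * j - 1) ≤ #{x : R | ∃ u : Rˣ, x = π ^ j * u} := by
  have h1 : ({x : R | π ^ j ∣ x} : Finset R) \ ({x : R | π ^ (j + 1) ∣ x} : Finset R) ⊆
      ({x : R | ∃ u : Rˣ, x = π ^ j * u} : Finset R) := by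
    intro x hx
    simp only [Finset.mem_sdiff, Finset.mem_filter, Finset.mem_univ, true_and] at hx ⊢
    obtain ⟨⟨y, hy⟩, hx2⟩ := hx
    obtain ⟨b, -, u, hu⟩ := h.exists_unit y
    rcases Nat.eq_zero_or_pos b with hb | hb
    · subst hb
      exact ⟨u, by rw [hy, hu, pow_zero, one_mul]⟩
    · exfalso
      apply hx2
      rw [hy, hu, pow_succ]
      refine mul_dvd_mul_left _ (Dvd.dvd.mul_right ?_ _)
      exact dvd_pow_self π (by omega)
  refine le_trans ?_ (Finset.card_le_card h1)
  have h2 := Finset.le_card_sdiff ({x : R | π ^ (j + 1) ∣ x} : Finset R)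
    ({x : R | π ^ j ∣ x} : Finset R)
  refine le_trans ?_ h2
  rw [card_filter_dvd h (by omega), card_filter_dvd h (by omega)]
  have h3 : q ^ (3 * j - j) = q ^ (2 * j - 1) * q := by
    rw [← pow_succ]; congr 1; omega
  have h4 : q ^ (3 * j - (j + 1)) = q ^ (2 * j - 1) := by congr 1; omega
  rw [h3, h4]
  have h5 : q ^ (2 * j - 1) * 2 ≤ q ^ (2 * j - 1) * q := Nat.mul_le_mul_left _ h.two_le
  omega

lemma card_TT (h : Chain R π q (3 * j)) (hj : 1 ≤ j) :
    q ^ (8 * j) ≤ q ^ 2 * Nat.card (TT π j) := by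
  classical
  have := h.finite
  have := Fintype.ofFinite R
  have hπ := h.pow_k
  choose! w hw using fun (x : R) (hx : ∃ u : Rˣ, x = π ^ j * u) => hx
  let E : Finset R := {x : R | ∃ u : Rˣ, x = π ^ j * u}
  let Y : Finset R := {x : R | π ^ j ∣ x}
  let Z : Finset R := {x : R | π ^ (2 * j) ∣ x}
  let D : Finset (R × R × R × R × R) := E ×ˢ Y ×ˢ E ×ˢ Z ×ˢ Finset.univ
  let f : R × R × R × R × R → (R × R) × (R × R) × (R × R) := fun c =>
    ((c.1, c.2.1), (c.2.2.1, ((w c.1)⁻¹ : Rˣ) * (w c.2.2.1 : R) * c.2.1 + c.2.2.2.1),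
      (π ^ j * c.2.2.2.2 * c.1, π ^ j * c.2.2.2.2 * c.2.1))
  have hTfin : (TT π j).Finite := Set.toFinite _
  have h1 : #D ≤ q ^ (2 * j) * #hTfin.toFinset := by
    refine Finset.card_le_mul_card_image_of_maps_to (f := f) ?_ _ ?_
    · rintro ⟨x, y, x', t, s⟩ hD
      simp only [D, E, Y, Z, Finset.mem_product, Finset.mem_filter, Finset.mem_univ, true_and,
        and_true] at hD
      obtain ⟨hx, hy, hx', ⟨t', ht⟩⟩ := hD
      have e1 := hw x hx
      have e2 := hw x' hx'
      have e3 : ((w x)⁻¹ : Rˣ) * (w x : R) = 1 := Units.inv_mul _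
      have e4 : ((w x')⁻¹ : Rˣ) * (w x' : R) = 1 := Units.inv_mul _
      have e5 : π ^ j * π ^ (2 * j) = 0 := by rw [← pow_add, ← hπ]; congr 1; omega
      have e6 : π ^ j * π ^ j = π ^ (2 * j) := by rw [← pow_add]; congr 1; omega
      obtain ⟨y', hy'⟩ := hy
      rw [Set.Finite.mem_toFinset]
      refine ⟨⟨⟨_, e1⟩, ⟨y', hy'⟩⟩, ⟨⟨_, e2⟩, ?_⟩, ?_, ⟨s, rfl⟩, ?_⟩
      · refine dvd_add ?_ ?_
        · refine Dvd.dvd.mul_left ⟨y', hy'⟩ _
        · rw [ht]
          refine Dvd.dvd.mul_right ?_ _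
          exact pow_dvd_pow π (by omega)
      · simp only [f, det2]
        rw [ht]
        have e7 : x * (π ^ (2 * j) * t') = 0 := by
          linear_combination (π ^ (2 * j) * t') * e1 + (w x : R) * t' * e5
        have e8 : x * (((w x)⁻¹ : Rˣ) * (w x' : R) * y) = x' * y := by
          linear_combination ((((w x)⁻¹ : Rˣ) : R) * (w x' : R) * y) * e1 - y * e2
            + (π ^ j * (w x' : R) * y) * e3
        linear_combination e7 + e8
      · refine ⟨s * (w x : R) * ((w x')⁻¹ : Rˣ), ?_⟩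
        refine Prod.ext ?_ ?_
        · simp only [f]
          linear_combination (π ^ j * s) * e1
            - (π ^ j * s * (w x : R) * (((w x')⁻¹ : Rˣ) : R)) * e2
            - (π ^ j * π ^ j * s * (w x : R)) * e4
        · simp only [f]
          rw [ht]
          linear_combination (-(π ^ j * s * y)) * e3
            - (π ^ j * s * y * (((w x)⁻¹ : Rˣ) : R) * (w x : R)) * e4
            - (s * (w x : R) * (((w x')⁻¹ : Rˣ) : R) * t') * e5
    · rintro ⟨p2, p3, p0⟩ -
      rcases Finset.eq_empty_or_nonempty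
        (D.filter (fun c => f c = (p2, p3, p0))) with h0 | ⟨c0, hc0⟩
      · rw [h0, Finset.card_empty]; exact Nat.zero_le _
      · rw [Finset.mem_filter] at hc0
        have hE : ∃ u : Rˣ, p2.1 = π ^ j * u := by
          have h2 := hc0.1
          simp only [D, E, Finset.mem_product, Finset.mem_filter, Finset.mem_univ, true_and] at h2
          have h3 := congrArg (fun z => z.1.1) hc0.2
          simp only [f] at h3
          rw [← h3]
          exact h2.1
        obtain ⟨u, hu⟩ := hE
        refine le_trans ?_ (card_fiber h (a := 2 * j) (by omega) u p0.1)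
        refine Finset.card_le_card_of_injOn (fun c => c.2.2.2.2) ?_ ?_
        · rintro ⟨x, y, x', t, s⟩ hc
          simp only [Finset.coe_filter, Set.mem_ofPred_eq, Finset.mem_univ, true_and] at hc ⊢
          have h4 := hc.2
          simp only [f, Prod.mk.injEq] at h4
          have h5 : x = p2.1 := congrArg Prod.fst h4.1
          have h6 : π ^ j * s * x = p0.1 := congrArg Prod.fst h4.2.2
          rw [← h6, h5, hu, two_mul, pow_add]
          ring
        · rintro ⟨x, y, x', t, s⟩ hc ⟨x1, y1, x1', t1, s1⟩ hc1 hs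
          simp only [Finset.coe_filter, Set.mem_ofPred_eq] at hc hc1
          have h4 := hc.2.trans hc1.2.symm
          simp only [f, Prod.mk.injEq] at h4
          simp only at hs
          obtain ⟨⟨rfl, rfl⟩, ⟨rfl, h5⟩, -⟩ := h4
          have h6 : t = t1 := add_left_cancel h5
          rw [h6, hs]
  have h2 : #D = #E * (#Y * (#E * (#Z * Fintype.card R))) := by
    simp only [D, Finset.card_product, Finset.card_univ]
  have hY : #Y = q ^ (2 * j) := by
    rw [card_filter_dvd h (by omega)]; congr 1; omega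
  have hZ : #Z = q ^ j := by
    rw [card_filter_dvd h (by omega)]; congr 1; omega
  have hR : Fintype.card R = q ^ (3 * j) := by
    rw [← Nat.card_eq_fintype_card, h.card_R]
  have hE := card_unit_mult h hj
  have h3 : Nat.card (TT π j) = #hTfin.toFinset := by
    rw [Nat.card_coe_set_eq, Set.ncard_eq_toFinset_card _ hTfin]
  rw [h3]
  have h4 : q ^ (2 * j) * q ^ (8 * j) ≤ q ^ (2 * j) * (q ^ 2 * #hTfin.toFinset) := by
    calc q ^ (2 * j) * q ^ (8 * j)
        = q ^ 2 * (q ^ (2 * j - 1) * (q ^ (2 * j) * (q ^ (2 * j - 1) * (q ^ j * q ^ (3 * j))))) := by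
          rw [← pow_add, ← pow_add, ← pow_add, ← pow_add, ← pow_add, ← pow_add]
          congr 1
          omega
      _ ≤ q ^ 2 * (#E * (#Y * (#E * (#Z * Fintype.card R)))) := by
          rw [hY, hZ, hR]
          exact Nat.mul_le_mul_left _ (Nat.mul_le_mul hE (Nat.mul_le_mul_left _
            (Nat.mul_le_mul_right _ hE)))
      _ = q ^ 2 * #D := by rw [h2]
      _ ≤ q ^ 2 * (q ^ (2 * j) * #hTfin.toFinset) := Nat.mul_le_mul_left _ h1
      _ = _ := by ring
  exact Nat.le_of_mul_le_mul_left h4 (pow_pos h.pos _)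

end

end Pool.Agent.X275.GZ
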