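import Pool.Agent.X275.GZ.G9

/-!
# The lower bound for the graph on nine vertices
-/

set_option autoImplicit false

namespace Pool.Agent.X275.GZ

open Finset

universe u v

section

variable {R : Type v} [CommRing R] {π : R} {q k j : ℕ}

/-- Pairs divisible by `r`. -/
abbrev PP (r : R) : Type v := {c : R × R // r ∣ c.1 ∧ r ∣ c.2}

/-- Pairs with determinant `0` with a given one. -/
abbrev KK (c : R × R) : Type v := {d : R × R // det2 c d = 0}

/-- The family, as a function of the parameters. -/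
def fam9 (b : TT π j × PP (π ^ (2 * j)) × PP (π ^ j))
    (d : KK b.1.1.2.1 × KK b.1.1.1 × KK b.2.1.1 × KK b.2.2.1) : Fin 9 → R × R :=
  ![b.1.1.2.2, b.2.1.1, b.1.1.1, b.1.1.2.1, d.1.1, d.2.1.1, b.2.2.1, d.2.2.1.1, d.2.2.2.1]

lemma fam9_sol (h : Chain R π q (3 * j)) (b : TT π j × PP (π ^ (2 * j)) × PP (π ^ j))
    (d : KK b.1.1.2.1 × KK b.1.1.1 × KK b.2.1.1 × KK b.2.2.1) :
    ∀ e ∈ L9, det2 (fam9 b d e.1) (fam9 b d e.2) = 0 := by
  obtain ⟨⟨⟨p2, p3, p0⟩, ⟨⟨a2, ha2⟩, ⟨a2', ha2'⟩⟩, ⟨⟨a3, ha3⟩, ⟨a3', ha3'⟩⟩, h23, ⟨s, hs⟩, ⟨s', hs'⟩⟩,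
    ⟨p1, ⟨a1, ha1⟩, ⟨a1', ha1'⟩⟩, ⟨p6, ⟨a6, ha6⟩, ⟨a6', ha6'⟩⟩⟩ := b
  obtain ⟨⟨p4, h34⟩, ⟨p5, h25⟩, ⟨p7, h17⟩, ⟨p8, h68⟩⟩ := d
  simp only at ha2 ha2' ha3 ha3' h23 hs hs' ha1 ha1' ha6 ha6' h34 h25 h17 h68
  have hπ : π ^ j * π ^ (2 * j) = 0 := by
    rw [← pow_add, ← h.pow_k]; congr 1; omega
  have hπ2 : π ^ j * π ^ j = π ^ (2 * j) := by rw [← pow_add]; congr 1; omega
  have h04 : det2 p0 p4 = 0 := by
    rw [hs']
    simp only [det2] at h34 ⊢
    linear_combination (π ^ j * s') * h34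
  have h05 : det2 p0 p5 = 0 := by
    rw [hs]
    simp only [det2] at h25 ⊢
    linear_combination (π ^ j * s) * h25
  have h06 : det2 p0 p6 = 0 := by
    rw [hs]
    simp only [det2]
    rw [ha2, ha2', ha6, ha6']
    linear_combination (s * (a2 * a6' - a6 * a2')) * hπ +
      (s * (a2 * a6' - a6 * a2') * π ^ j) * hπ2
  have h12 : det2 p1 p2 = 0 := by
    simp only [det2]
    rw [ha2, ha2', ha1, ha1']
    linear_combination (a1 * a2' - a2 * a1') * hπ
  have h13 : det2 p1 p3 = 0 := by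
    simp only [det2]
    rw [ha3, ha3', ha1, ha1']
    linear_combination (a1 * a3' - a3 * a1') * hπ
  have h16 : det2 p1 p6 = 0 := by
    simp only [det2]
    rw [ha6, ha6', ha1, ha1']
    linear_combination (a1 * a6' - a6 * a1') * hπ
  intro e he
  simp only [L9, List.mem_cons, List.not_mem_nil, or_false] at he
  rcases he with rfl | rfl | rfl | rfl | rfl | rfl | rfl | rfl | rfl | rfl | rfl
  · exact h04
  · exact h05
  · exact h06
  · exact h12
  · exact h13
  · exact h16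
  · exact h17
  · exact h23
  · exact h25
  · exact h34
  · exact h68

/-- The injection of the family into the set of solutions. -/
def famMap9 (h : Chain R π q (3 * j)) :
    (Σ b : TT π j × PP (π ^ (2 * j)) × PP (π ^ j),
      KK b.1.1.2.1 × KK b.1.1.1 × KK b.2.1.1 × KK b.2.2.1) →
    {p : Fin 9 → R × R // ∀ e : Edge G9, det2 (p e.1.1) (p e.1.2) = 0} :=
  fun s => ⟨fam9 s.1 s.2, sol_of_L9 _ (fam9_sol h s.1 s.2)⟩

lemma famMap9_inj (h : Chain R π q (3 * j)) : Function.Injective (famMap9 h) := by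
  rintro ⟨⟨⟨⟨p2, p3, p0⟩, hT⟩, ⟨p1, h1⟩, ⟨p6, h6⟩⟩, ⟨⟨p4, h34⟩, ⟨p5, h25⟩, ⟨p7, h17⟩, ⟨p8, h68⟩⟩⟩
    ⟨⟨⟨⟨p2', p3', p0'⟩, hT'⟩, ⟨p1', h1'⟩, ⟨p6', h6'⟩⟩, ⟨⟨p4', h34'⟩, ⟨p5', h25'⟩, ⟨p7', h17'⟩,
      ⟨p8', h68'⟩⟩⟩ H
  have H1 : (![p0, p1, p2, p3, p4, p5, p6, p7, p8] : Fin 9 → R × R)
      = ![p0', p1', p2', p3', p4', p5', p6', p7', p8'] := congrArg Subtype.val H
  have e0 : p0 = p0' := congrFun H1 0
  have e1 : p1 = p1' := congrFun H1 1
  have e2 : p2 = p2' := congrFun H1 2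
  have e3 : p3 = p3' := congrFun H1 3
  have e4 : p4 = p4' := congrFun H1 4
  have e5 : p5 = p5' := congrFun H1 5
  have e6 : p6 = p6' := congrFun H1 6
  have e7 : p7 = p7' := congrFun H1 7
  have e8 : p8 = p8' := congrFun H1 8
  subst e0 e1 e2 e3 e4 e5 e6 e7 e8
  rfl

lemma card_KK_ge (h : Chain R π q (3 * j)) {a : ℕ} (ha : a ≤ 3 * j) (c : R × R)
    (hc : π ^ a ∣ c.1 ∧ π ^ a ∣ c.2) : q ^ (3 * j + a) ≤ Nat.card (KK c) := by
  classical
  have := h.finite
  have := Fintype.ofFinite R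
  have h1 := card_det_ge h (a := a) (b := 0) (by omega) hc
  rw [KK, Nat.card_eq_fintype_card, Fintype.card_subtype]
  refine le_trans h1 (Finset.card_le_card ?_)
  intro d hd
  simp only [Finset.mem_filter, Finset.mem_univ, true_and] at hd ⊢
  exact hd.2

lemma card_PP (h : Chain R π q k) {b : ℕ} (hb : b ≤ k) :
    Nat.card (PP (π ^ b)) = q ^ (k - b) * q ^ (k - b) := by
  classical
  have := h.finite
  have := Fintype.ofFinite R
  rw [PP, Nat.card_eq_fintype_card, Fintype.card_subtype]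
  exact card_pairs h hb

lemma sol9_ge (h : Chain R π q (3 * j)) (hj : 1 ≤ j) :
    q ^ (31 * j) ≤ q ^ 2 * Nat.card (Sol G9 R) := by
  have := h.finite
  rw [Nat.card_congr (equivSol G9)]
  have h1 := Nat.card_le_card_of_injective (famMap9 h) (famMap9_inj h)
  refine le_trans ?_ (Nat.mul_le_mul_left _ h1)
  have : Fintype (TT π j × PP (π ^ (2 * j)) × PP (π ^ j)) := Fintype.ofFinite _
  rw [Nat.card_sigma]
  have h2 : ∀ b : TT π j × PP (π ^ (2 * j)) × PP (π ^ j),
      q ^ (17 * j) ≤ Nat.card (KK b.1.1.2.1 × KK b.1.1.1 × KK b.2.1.1 × KK b.2.2.1) := by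
    intro b
    rw [Nat.card_prod, Nat.card_prod, Nat.card_prod]
    have g1 := card_KK_ge h (a := j) (by omega) b.1.1.2.1 b.1.2.2.1
    have g2 := card_KK_ge h (a := j) (by omega) b.1.1.1 b.1.2.1
    have g3 := card_KK_ge h (a := 2 * j) (by omega) b.2.1.1 b.2.1.2
    have g4 := card_KK_ge h (a := j) (by omega) b.2.2.1 b.2.2.2
    have e : q ^ (17 * j) = q ^ (3 * j + j) * (q ^ (3 * j + j) * (q ^ (3 * j + 2 * j) *
        q ^ (3 * j + j))) := by
      rw [← pow_add, ← pow_add, ← pow_add]; congr 1; omega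
    rw [e]
    exact Nat.mul_le_mul g1 (Nat.mul_le_mul g2 (Nat.mul_le_mul g3 g4))
  have h3 : q ^ 2 * Nat.card (TT π j × PP (π ^ (2 * j)) × PP (π ^ j)) ≥ q ^ (14 * j) := by
    rw [Nat.card_prod, Nat.card_prod, card_PP h (by omega), card_PP h (by omega), ← mul_assoc]
    have g := card_TT h hj
    calc q ^ (14 * j) = q ^ (8 * j) * (q ^ (3 * j - 2 * j) * q ^ (3 * j - 2 * j) *
          (q ^ (3 * j - j) * q ^ (3 * j - j))) := by
          rw [← pow_add, ← pow_add, ← pow_add, ← pow_add]; congr 1; omega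
      _ ≤ _ := Nat.mul_le_mul_right _ g
  calc q ^ (31 * j) = q ^ (14 * j) * q ^ (17 * j) := by rw [← pow_add]; congr 1; omega
    _ ≤ (q ^ 2 * Nat.card (TT π j × PP (π ^ (2 * j)) × PP (π ^ j))) * q ^ (17 * j) :=
        Nat.mul_le_mul_right _ h3
    _ = q ^ 2 * ∑ _b : TT π j × PP (π ^ (2 * j)) × PP (π ^ j), q ^ (17 * j) := by
        rw [Finset.sum_const, Finset.card_univ, smul_eq_mul, Nat.card_eq_fintype_card]
        ring
    _ ≤ _ := Nat.mul_le_mul_left _ (Finset.sum_le_sum fun b _ => h2 b)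

/-- The number of conjugacy classes of `G_Γ(R)`, in terms of the number of solutions, for the
graph `G9`. -/
lemma card_conj9 [Finite R] :
    Nat.card (ConjClasses (GG G9 R)) = Nat.card R ^ 2 * Nat.card (Sol G9 R) := by
  have h := card_conj (Γ := G9) (R := R)
  rw [card_edge9, Nat.card_eq_fintype_card (α := Fin 9), Fintype.card_fin] at h
  have hpos : 0 < Nat.card R ^ 20 := pow_pos Nat.card_pos _
  apply Nat.eq_of_mul_eq_mul_right hpos
  calc Nat.card (ConjClasses (GG G9 R)) * Nat.card R ^ 20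
      = Nat.card (ConjClasses (GG G9 R)) * (Nat.card R ^ 9 * Nat.card R ^ 11) := by ring
    _ = _ := by rw [h]; ring

end

/-! ### Quotients of discrete valuation rings -/

section dvr

variable (O : Type v) [CommRing O] [IsDomain O] [IsDiscreteValuationRing O]
  [Finite (IsLocalRing.ResidueField O)]

lemma card_quot_pow (k : ℕ) : Nat.card (O ⧸ (IsLocalRing.maximalIdeal O) ^ k)
    = Nat.card (IsLocalRing.ResidueField O) ^ k :=
  cardQuot_pow_of_prime (P := IsLocalRing.maximalIdeal O)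
    (IsDiscreteValuationRing.not_a_field O) (i := k)

lemma exists_chain (k : ℕ) : ∃ π : O ⧸ (IsLocalRing.maximalIdeal O) ^ k,
    Chain (O ⧸ (IsLocalRing.maximalIdeal O) ^ k) π (Nat.card (IsLocalRing.ResidueField O)) k := by
  obtain ⟨ϖ, hϖ⟩ := IsDiscreteValuationRing.exists_irreducible O
  have hm : IsLocalRing.maximalIdeal O = Ideal.span {ϖ} := hϖ.maximalIdeal_eq
  have hq : 2 ≤ Nat.card (IsLocalRing.ResidueField O) := by
    have := Finite.one_lt_card (α := IsLocalRing.ResidueField O)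
    omega
  have hfin : ∀ b : ℕ, Finite (O ⧸ (IsLocalRing.maximalIdeal O) ^ b) := by
    intro b
    apply Nat.finite_of_card_ne_zero
    rw [card_quot_pow]
    positivity
  have hmk : (Ideal.Quotient.mk ((IsLocalRing.maximalIdeal O) ^ k) ϖ) ^ k = 0 := by
    rw [← map_pow, Ideal.Quotient.eq_zero_iff_mem, hm]
    exact Ideal.pow_mem_pow (Ideal.mem_span_singleton_self ϖ) k
  refine ⟨Ideal.Quotient.mk _ ϖ, hfin k, ?_, ?_, hq⟩
  · intro x
    obtain ⟨y, rfl⟩ := Ideal.Quotient.mk_surjective x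
    by_cases hy : y = 0
    · refine ⟨k, le_rfl, 1, ?_⟩
      rw [hy, map_zero, hmk, zero_mul]
    · obtain ⟨n, u, rfl⟩ := IsDiscreteValuationRing.eq_unit_mul_pow_irreducible hy hϖ
      by_cases hn : n ≤ k
      · refine ⟨n, hn, Units.map (Ideal.Quotient.mk _).toMonoidHom u, ?_⟩
        rw [map_mul, map_pow, mul_comm]
        rfl
      · refine ⟨k, le_rfl, 1, ?_⟩
        rw [hmk, zero_mul, map_mul, map_pow]
        have : n = k + (n - k) := by omega
        rw [this, pow_add, hmk, zero_mul, mul_zero]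
  · intro b hb
    have := hfin k
    have := hfin b
    have hle : (IsLocalRing.maximalIdeal O) ^ k ≤ (IsLocalRing.maximalIdeal O) ^ b :=
      Ideal.pow_le_pow_right hb
    let f : (O ⧸ (IsLocalRing.maximalIdeal O) ^ k) →+ (O ⧸ (IsLocalRing.maximalIdeal O) ^ b) :=
      (Ideal.Quotient.factor hle).toAddMonoidHom
    have hf : Function.Surjective f := Ideal.Quotient.factor_surjective hle
    have h1 := AddSubgroup.card_eq_card_quotient_mul_card_addSubgroup f.ker
    rw [Nat.card_congr (QuotientAddGroup.quotientKerEquivOfSurjective f hf).toEquiv,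
      card_quot_pow, card_quot_pow] at h1
    have h2 : Nat.card f.ker = Nat.card {x : O ⧸ (IsLocalRing.maximalIdeal O) ^ k //
        (Ideal.Quotient.mk ((IsLocalRing.maximalIdeal O) ^ k) ϖ) ^ b ∣ x} := by
      refine Nat.card_congr (Equiv.subtypeEquivRight fun x => ?_)
      obtain ⟨y, rfl⟩ := Ideal.Quotient.mk_surjective x
      rw [AddMonoidHom.mem_ker]
      have e1 : f (Ideal.Quotient.mk _ y) = Ideal.Quotient.mk _ y := rfl
      rw [e1, Ideal.Quotient.eq_zero_iff_mem, hm, Ideal.span_singleton_pow,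
        Ideal.mem_span_singleton]
      constructor
      · rintro ⟨z, rfl⟩
        exact ⟨Ideal.Quotient.mk _ z, by rw [map_mul, map_pow]⟩
      · rintro ⟨z, hz⟩
        obtain ⟨z, rfl⟩ := Ideal.Quotient.mk_surjective z
        rw [← map_pow, ← map_mul, Ideal.Quotient.mk_eq_mk_iff_sub_mem, ← hm] at hz
        have h3 : y - ϖ ^ b * z ∈ (IsLocalRing.maximalIdeal O) ^ b := hle hz
        rw [hm, Ideal.span_singleton_pow, Ideal.mem_span_singleton] at h3
        have h4 := dvd_add h3 (Dvd.intro z rfl : ϖ ^ b ∣ ϖ ^ b * z)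
        rwa [sub_add_cancel] at h4
    rw [h2] at h1
    have h3 : Nat.card (IsLocalRing.ResidueField O) ^ k
        = Nat.card (IsLocalRing.ResidueField O) ^ b
          * Nat.card (IsLocalRing.ResidueField O) ^ (k - b) := by
      rw [← pow_add]; congr 1; omega
    exact (Nat.eq_of_mul_eq_mul_left (pow_pos (by omega) b) (h3.symm.trans h1)).symm

end dvr

end Pool.Agent.X275.GZ
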