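import Pool.Agent.X275.GZ.G8

/-!
# `ZMod (p ^ k)` is a chain ring; multiplicativity of the number of solutions
-/

set_option autoImplicit false

namespace Pool.Agent.X275.GZ

open Finset

universe u v

lemma dvd_iff_castHom {p b k : ℕ} [Fact p.Prime] (hb : b ≤ k) (x : ZMod (p ^ k)) :
    ((p : ZMod (p ^ k)) ^ b ∣ x) ↔ ZMod.castHom (pow_dvd_pow p hb) (ZMod (p ^ b)) x = 0 := by
  have hne : NeZero (p ^ k) := ⟨pow_ne_zero _ (Fact.out : p.Prime).ne_zero⟩
  constructor
  · rintro ⟨y, rfl⟩
    rw [map_mul, map_pow, map_natCast, ← Nat.cast_pow, ZMod.natCast_self, zero_mul]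
  · intro h
    rw [← ZMod.natCast_zmod_val x, map_natCast, ZMod.natCast_eq_zero_iff] at h
    obtain ⟨m, hm⟩ := h
    refine ⟨(m : ZMod (p ^ k)), ?_⟩
    rw [← Nat.cast_pow, ← Nat.cast_mul, ← hm, ZMod.natCast_zmod_val]

lemma chain_zmod (p : ℕ) [Fact p.Prime] (k : ℕ) :
    Chain (ZMod (p ^ k)) (p : ZMod (p ^ k)) p k where
  finite := by
    have hne : NeZero (p ^ k) := ⟨pow_ne_zero _ (Fact.out : p.Prime).ne_zero⟩
    infer_instance
  two_le := (Fact.out : p.Prime).two_le
  exists_unit := by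
    intro x
    have hp : p.Prime := Fact.out
    have hne : NeZero (p ^ k) := ⟨pow_ne_zero _ hp.ne_zero⟩
    by_cases hx : x.val = 0
    · refine ⟨k, le_rfl, 1, ?_⟩
      rw [ZMod.val_eq_zero] at hx
      rw [hx, ← Nat.cast_pow, ZMod.natCast_self, zero_mul]
    · obtain ⟨a, m, hm, hxm⟩ := Nat.exists_eq_pow_mul_and_not_dvd hx p hp.ne_one
      have hlt := x.val_lt
      have hm0 : m ≠ 0 := by
        rintro rfl
        exact hm (dvd_zero p)
      have ha : a ≤ k := by
        by_contra hak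
        have h1 : p ^ k ≤ p ^ a := Nat.pow_le_pow_right hp.pos (by omega)
        have h2 : p ^ a ≤ p ^ a * m := Nat.le_mul_of_pos_right _ (Nat.pos_of_ne_zero hm0)
        omega
      have hcop : m.Coprime (p ^ k) := (Nat.Coprime.pow_left k ((Nat.Prime.coprime_iff_not_dvd hp).mpr hm)).symm
      refine ⟨a, ha, ZMod.unitOfCoprime m hcop, ?_⟩
      rw [ZMod.coe_unitOfCoprime, ← Nat.cast_pow, ← Nat.cast_mul, ← hxm, ZMod.natCast_zmod_val]
  card_dvd := by
    intro b hb
    have hp : p.Prime := Fact.out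
    have hne : NeZero (p ^ k) := ⟨pow_ne_zero _ hp.ne_zero⟩
    have hne' : NeZero (p ^ b) := ⟨pow_ne_zero _ hp.ne_zero⟩
    let f : ZMod (p ^ k) →+ ZMod (p ^ b) :=
      (ZMod.castHom (pow_dvd_pow p hb) (ZMod (p ^ b))).toAddMonoidHom
    have hf : Function.Surjective f := ZMod.castHom_surjective (pow_dvd_pow p hb)
    have h1 := AddSubgroup.card_eq_card_quotient_mul_card_addSubgroup f.ker
    rw [Nat.card_congr (QuotientAddGroup.quotientKerEquivOfSurjective f hf).toEquiv,
      Nat.card_eq_fintype_card, Nat.card_eq_fintype_card, ZMod.card, ZMod.card] at h1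
    have h2 : Nat.card f.ker = Nat.card {x : ZMod (p ^ k) // (p : ZMod (p ^ k)) ^ b ∣ x} :=
      Nat.card_congr (Equiv.subtypeEquivRight fun x => by
        rw [AddMonoidHom.mem_ker, dvd_iff_castHom hb]
        rfl)
    rw [h2] at h1
    have h3 : p ^ k = p ^ b * p ^ (k - b) := by rw [← pow_add]; congr 1; omega
    exact (Nat.eq_of_mul_eq_mul_left (pow_pos hp.pos b) (h3.symm.trans h1)).symm

section mul

variable {V : Type u} [LinearOrder V] {Γ : SimpleGraph V}

/-- Functoriality for isomorphisms. -/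
def solCongr {R S : Type v} [CommRing R] [CommRing S] (f : R ≃+* S) : Sol Γ R ≃ Sol Γ S where
  toFun c := ⟨(fun w => f (c.1.1 w), fun w => f (c.1.2 w)), fun e => by
    simp only [← map_mul, c.2 e]⟩
  invFun c := ⟨(fun w => f.symm (c.1.1 w), fun w => f.symm (c.1.2 w)), fun e => by
    simp only [← map_mul, c.2 e]⟩
  left_inv c := by
    apply Subtype.ext
    simp
  right_inv c := by
    apply Subtype.ext
    simp

/-- Solutions over a product. -/
def solProd {R S : Type v} [CommRing R] [CommRing S] : Sol Γ (R × S) ≃ Sol Γ R × Sol Γ S where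
  toFun c := (⟨(fun w => (c.1.1 w).1, fun w => (c.1.2 w).1), fun e => by
      have := congrArg Prod.fst (c.2 e)
      simpa using this⟩,
    ⟨(fun w => (c.1.1 w).2, fun w => (c.1.2 w).2), fun e => by
      have := congrArg Prod.snd (c.2 e)
      simpa using this⟩)
  invFun c := ⟨(fun w => (c.1.1.1 w, c.2.1.1 w), fun w => (c.1.1.2 w, c.2.1.2 w)), fun e => by
    refine Prod.ext ?_ ?_
    · simpa using c.1.2 e
    · simpa using c.2.2 e⟩
  left_inv _ := rfl
  right_inv _ := rfl

lemma card_sol_mul {m n : ℕ} (h : m.Coprime n) :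
    Nat.card (Sol Γ (ZMod (m * n))) = Nat.card (Sol Γ (ZMod m)) * Nat.card (Sol Γ (ZMod n)) := by
  rw [Nat.card_congr (solCongr (ZMod.chineseRemainder h)), Nat.card_congr solProd, Nat.card_prod]

lemma card_sol_one : Nat.card (Sol Γ (ZMod 1)) = 1 := by
  rw [Nat.card_eq_one_iff_unique]
  refine ⟨⟨fun c d => ?_⟩, ⟨⟨(fun _ => 0, fun _ => 0), fun e => by simp⟩⟩⟩
  apply Subtype.ext
  apply Prod.ext
  · funext w; exact Subsingleton.elim _ _
  · funext w; exact Subsingleton.elim _ _

end mul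

/-- The number of conjugacy classes of `G_Γ(R)`, in terms of the number of solutions, for the
graph `G8`. -/
lemma card_conj8 {R : Type v} [CommRing R] [Finite R] :
    Nat.card (ConjClasses (GG G8 R)) = Nat.card R ^ 2 * Nat.card (Sol G8 R) := by
  have h := card_conj (Γ := G8) (R := R)
  rw [card_edge8, Nat.card_eq_fintype_card (α := Fin 8), Fintype.card_fin] at h
  have hpos : 0 < Nat.card R ^ 18 := pow_pos Nat.card_pos _
  apply Nat.eq_of_mul_eq_mul_right hpos
  calc Nat.card (ConjClasses (GG G8 R)) * Nat.card R ^ 18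
      = Nat.card (ConjClasses (GG G8 R)) * (Nat.card R ^ 8 * Nat.card R ^ 10) := by ring
    _ = _ := by rw [h]; ring

end Pool.Agent.X275.GZ
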